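import Pool.Agent.Helper98.PF.Core
import Pool.Agent.Helper21.MH.HodgeD

/-!
Project PF (MP_b8862a_ag): from Lie algebras of matrices to Lie subalgebras of endomorphisms.
-/

set_option linter.unusedSectionVars false

open Matrix Module

attribute [local instance 100] LieRing.ofAssociativeRing

namespace MH

variable {n : Type*} [Fintype n] [DecidableEq n]
variable {L : Submodule ℂ (Matrix n n ℂ)}

/-- the Lie subalgebra of endomorphisms -/
noncomputable def lieOf (L : Submodule ℂ (Matrix n n ℂ)) (hbr : ∀ X ∈ L, ∀ Y ∈ L, X * Y - Y * X ∈ L) :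
    LieSubalgebra ℂ (Module.End ℂ (n → ℂ)) where
  toSubmodule := L.comap (LinearMap.toMatrix' : Module.End ℂ (n → ℂ) ≃ₗ[ℂ] Matrix n n ℂ).toLinearMap
  lie_mem' := by
    intro x y hx hy
    change LinearMap.toMatrix' ⁅x, y⁆ ∈ L
    change LinearMap.toMatrix' x ∈ L at hx
    change LinearMap.toMatrix' y ∈ L at hy
    rw [LieRing.of_associative_ring_bracket, map_sub, Module.End.mul_eq_comp, Module.End.mul_eq_comp,
      LinearMap.toMatrix'_comp, LinearMap.toMatrix'_comp]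
    exact hbr _ hx _ hy

theorem mem_lieOf {hbr : ∀ X ∈ L, ∀ Y ∈ L, X * Y - Y * X ∈ L} {x : Module.End ℂ (n → ℂ)} :
    x ∈ lieOf L hbr ↔ LinearMap.toMatrix' x ∈ L := Iff.rfl

theorem toLin_mem_lieOf {hbr : ∀ X ∈ L, ∀ Y ∈ L, X * Y - Y * X ∈ L} {X : Matrix n n ℂ} (hX : X ∈ L) :
    Matrix.toLin' X ∈ lieOf L hbr := by
  rw [mem_lieOf, LinearMap.toMatrix'_toLin']
  exact hX

theorem apply_eq98 (x : Module.End ℂ (n → ℂ)) (u : n → ℂ) : x u = LinearMap.toMatrix' x *ᵥ u :=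
  (LinearMap.toMatrix'_mulVec x u).symm

/-- an irreducible Lie algebra of matrices of size at least two is not commutative -/
theorem exists_noncomm98 (hirr : ∀ W : Submodule ℂ (n → ℂ), (∀ X ∈ L, ∀ w ∈ W, X *ᵥ w ∈ W) → W = ⊥ ∨ W = ⊤)
    (h2 : 2 ≤ Fintype.card n) : ∃ X ∈ L, ∃ Y ∈ L, X * Y ≠ Y * X := by
  by_contra hc
  push Not at hc
  have hne : Nonempty n := Fintype.card_pos_iff.1 (by omega)
  have hsc : ∀ X ∈ L, ∃ c : ℂ, ∀ v : n → ℂ, X *ᵥ v = c • v := by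
    intro X hX
    obtain ⟨c, hc'⟩ := Module.End.exists_eigenvalue (Matrix.toLin' X)
    refine ⟨c, ?_⟩
    rcases hirr (Module.End.eigenspace (Matrix.toLin' X) c) (by
      intro Y hY w hw
      rw [Module.End.mem_eigenspace_iff, Matrix.toLin'_apply] at hw ⊢
      rw [Matrix.mulVec_mulVec, hc X hX Y hY, ← Matrix.mulVec_mulVec, hw, Matrix.mulVec_smul]) with h | h
    · exact absurd h hc'
    · intro v
      have hv : v ∈ Module.End.eigenspace (Matrix.toLin' X) c := by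
        rw [h]
        exact Submodule.mem_top
      rwa [Module.End.mem_eigenspace_iff, Matrix.toLin'_apply] at hv
  obtain ⟨i⟩ := hne
  rcases hirr (Submodule.span ℂ {Pi.single i (1 : ℂ)}) (by
    intro X hX w hw
    obtain ⟨c, hc'⟩ := hsc X hX
    rw [hc']
    exact Submodule.smul_mem _ _ hw) with h | h
  · rw [Submodule.span_singleton_eq_bot] at h
    have := congrFun h i
    rw [Pi.single_eq_same] at this
    exact one_ne_zero this
  · have h1 : finrank ℂ (n → ℂ) ≤ 1 := by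
      rw [← finrank_top, ← h, finrank_span_singleton (fun h0 => one_ne_zero (by
        have := congrFun h0 i
        rwa [Pi.single_eq_same] at this))]
    rw [Module.finrank_fintype_fun_eq_card] at h1
    omega

theorem lieOf_simple {hbr : ∀ X ∈ L, ∀ Y ∈ L, X * Y - Y * X ∈ L}
    (hirr : ∀ W : Submodule ℂ (n → ℂ), (∀ X ∈ L, ∀ w ∈ W, X *ᵥ w ∈ W) → W = ⊥ ∨ W = ⊤)
    (h2 : 2 ≤ Fintype.card n) (hs : Smp L) : LieAlgebra.IsSimple ℂ (lieOf L hbr) where
  eq_bot_or_eq_top := by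
    intro I
    -- the corresponding subspace of matrices
    let K : Submodule ℂ (Matrix n n ℂ) :=
      (I.toSubmodule.map (lieOf L hbr).toSubmodule.subtype).map
        (LinearMap.toMatrix' : Module.End ℂ (n → ℂ) ≃ₗ[ℂ] Matrix n n ℂ).toLinearMap
    have mK : ∀ X : Matrix n n ℂ, X ∈ K ↔ ∃ x : lieOf L hbr, x ∈ I ∧ LinearMap.toMatrix' (x : Module.End ℂ (n → ℂ)) = X := by
      intro X
      constructor
      · rintro ⟨y, ⟨x, hx, rfl⟩, rfl⟩
        exact ⟨x, hx, rfl⟩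
      · rintro ⟨x, hx, rfl⟩
        exact ⟨x, ⟨x, hx, rfl⟩, rfl⟩
    have hKL : K ≤ L := by
      intro X hX
      obtain ⟨x, _, rfl⟩ := (mK X).1 hX
      exact mem_lieOf.1 x.2
    have hid : ∀ X ∈ L, ∀ Y ∈ K, X * Y - Y * X ∈ K := by
      intro X hX Y hY
      obtain ⟨y, hy, rfl⟩ := (mK Y).1 hY
      refine (mK _).2 ⟨⁅(⟨Matrix.toLin' X, toLin_mem_lieOf hX⟩ : lieOf L hbr), y⁆, lie_mem_right ℂ _ I _ _ hy, ?_⟩
      rw [LieSubalgebra.coe_bracket, LieRing.of_associative_ring_bracket, map_sub, Module.End.mul_eq_comp,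
        Module.End.mul_eq_comp, LinearMap.toMatrix'_comp, LinearMap.toMatrix'_comp, LinearMap.toMatrix'_toLin']
    rcases hs K hKL hid with h | h
    · left
      rw [LieSubmodule.eq_bot_iff]
      intro x hx
      have h1 : LinearMap.toMatrix' (x : Module.End ℂ (n → ℂ)) ∈ K := (mK _).2 ⟨x, hx, rfl⟩
      rw [h, Submodule.mem_bot] at h1
      exact Subtype.ext ((LinearEquiv.map_eq_zero_iff _).1 h1)
    · right
      rw [eq_top_iff]
      intro x _
      have h1 : LinearMap.toMatrix' (x : Module.End ℂ (n → ℂ)) ∈ K := by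
        rw [h]
        exact mem_lieOf.1 x.2
      obtain ⟨y, hy, hxy⟩ := (mK _).1 h1
      have h3 : y = x := Subtype.ext (LinearMap.toMatrix'.injective hxy)
      rwa [h3] at hy
  non_abelian := by
    intro hab
    obtain ⟨X, hX, Y, hY, hne⟩ := exists_noncomm98 hirr h2
    apply hne
    have h1 := hab.trivial (⟨Matrix.toLin' X, toLin_mem_lieOf hX⟩ : lieOf L hbr)
      (⟨Matrix.toLin' Y, toLin_mem_lieOf hY⟩ : lieOf L hbr)
    have h3 := congrArg (fun z : lieOf L hbr => LinearMap.toMatrix' (z : Module.End ℂ (n → ℂ))) h1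
    simp only [LieSubalgebra.coe_bracket, LieRing.of_associative_ring_bracket, map_sub, Module.End.mul_eq_comp,
      LinearMap.toMatrix'_comp, LinearMap.toMatrix'_toLin', ZeroMemClass.coe_zero, map_zero] at h3
    exact sub_eq_zero.1 h3

theorem lieOf_irr {hbr : ∀ X ∈ L, ∀ Y ∈ L, X * Y - Y * X ∈ L}
    (hirr : ∀ W : Submodule ℂ (n → ℂ), (∀ X ∈ L, ∀ w ∈ W, X *ᵥ w ∈ W) → W = ⊥ ∨ W = ⊤)
    (W : Submodule ℂ (n → ℂ)) (hW : ∀ x ∈ lieOf L hbr, ∀ u ∈ W, x u ∈ W) : W = ⊥ ∨ W = ⊤ := by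
  refine hirr W fun X hX w hw => ?_
  have := hW _ (toLin_mem_lieOf hX) w hw
  rwa [Matrix.toLin'_apply] at this

/-! ### the form -/

variable {Q' Qi : Matrix n n ℂ}

theorem form_apply98 (u v : n → ℂ) : Matrix.toBilin' Q' u v = u ⬝ᵥ Q' *ᵥ v := Matrix.toBilin'_apply' _ _ _

theorem form_symm98 (hQ : Q'ᵀ = Q') : (Matrix.toBilin' Q').IsSymm := by
  refine ⟨fun u v => ?_⟩
  rw [form_apply98, form_apply98, Matrix.dotProduct_mulVec, ← Matrix.mulVec_transpose, hQ, dotProduct_comm]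

theorem form_alt98 (hQ : Q'ᵀ = -Q') (u v : n → ℂ) : Matrix.toBilin' Q' u v = -Matrix.toBilin' Q' v u := by
  rw [form_apply98, form_apply98, Matrix.dotProduct_mulVec, ← Matrix.mulVec_transpose, hQ, Matrix.neg_mulVec,
    neg_dotProduct, dotProduct_comm]

theorem form_nondeg98 (h1 : Q' * Qi = 1) : (Matrix.toBilin' Q').Nondegenerate := by
  apply LinearMap.BilinForm.nondegenerate_toBilin'_of_det_ne_zero'
  intro h
  have := congrArg Matrix.det h1
  rw [Matrix.det_mul, h, zero_mul, Matrix.det_one] at this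
  exact zero_ne_one this

theorem skew_iff98 {X : Matrix n n ℂ} : Xᵀ * Q' + Q' * X = 0 ↔
    ∀ u v, Matrix.toBilin' Q' (X *ᵥ u) v = -Matrix.toBilin' Q' u (X *ᵥ v) := by
  have e1 : ∀ u v : n → ℂ, (X *ᵥ u) ⬝ᵥ Q' *ᵥ v = u ⬝ᵥ (Xᵀ * Q') *ᵥ v := by
    intro u v
    rw [← Matrix.mulVec_mulVec, Matrix.dotProduct_mulVec u, Matrix.vecMul_transpose]
  have e2 : ∀ u v : n → ℂ, u ⬝ᵥ Q' *ᵥ (X *ᵥ v) = u ⬝ᵥ (Q' * X) *ᵥ v := by
    intro u v
    rw [Matrix.mulVec_mulVec]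
  constructor
  · intro h u v
    rw [form_apply98, form_apply98, e1, e2, eq_neg_iff_add_eq_zero, ← dotProduct_add, ← Matrix.add_mulVec, h,
      Matrix.zero_mulVec, dotProduct_zero]
  · intro h
    ext i j
    have h1 := h (Pi.single i 1) (Pi.single j 1)
    rw [form_apply98, form_apply98, e1, e2, eq_neg_iff_add_eq_zero, ← dotProduct_add, ← Matrix.add_mulVec] at h1
    simpa using h1

theorem lieOf_sk {hbr : ∀ X ∈ L, ∀ Y ∈ L, X * Y - Y * X ∈ L} (hsk : ∀ X ∈ L, Xᵀ * Q' + Q' * X = 0)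
    (x : Module.End ℂ (n → ℂ)) (hx : x ∈ lieOf L hbr) (u v : n → ℂ) :
    Matrix.toBilin' Q' (x u) v = -Matrix.toBilin' Q' u (x v) := by
  rw [apply_eq98, apply_eq98]
  exact skew_iff98.1 (hsk _ (mem_lieOf.1 hx)) u v

/-! ### the spectral decomposition -/

variable {h : Matrix n n ℂ} {E : ℝ → Matrix n n ℂ} {Λ : Finset ℝ}

theorem SD.eig98 (hE : SD h E Λ) (μ : ℝ) :
    Module.End.eigenspace (Matrix.toLin' h) (μ : ℂ) = LinearMap.range (Matrix.toLin' (E μ)) := by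
  apply le_antisymm
  · intro v hv
    rw [Module.End.mem_eigenspace_iff, Matrix.toLin'_apply] at hv
    refine ⟨v, ?_⟩
    rw [Matrix.toLin'_apply]
    have h1 : ∀ ν ∈ Λ, ν ≠ μ → E ν *ᵥ v = 0 := by
      intro ν _ hν
      have e1 : E ν *ᵥ (h *ᵥ v) = (ν : ℂ) • (E ν *ᵥ v) := by
        rw [Matrix.mulVec_mulVec, hE.mul_l, Matrix.smul_mulVec]
      rw [hv, Matrix.mulVec_smul] at e1
      have e2 : ((μ : ℂ) - ν) • (E ν *ᵥ v) = 0 := by rw [sub_smul, e1, sub_self]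
      rcases smul_eq_zero.1 e2 with e3 | e3
      · exact absurd (by exact_mod_cast (sub_eq_zero.1 e3).symm) hν
      · exact e3
    have h3 : v = ∑ ν ∈ Λ, E ν *ᵥ v := by
      rw [← Matrix.sum_mulVec, hE.sum, Matrix.one_mulVec]
    by_cases hμ : μ ∈ Λ
    · rw [h3, Matrix.mulVec_sum]
      refine (Finset.sum_congr rfl fun ν hν => ?_)
      by_cases hνμ : ν = μ
      · rw [hνμ, Matrix.mulVec_mulVec, hE.mul, if_pos rfl]
      · rw [h1 ν hν hνμ, Matrix.mulVec_zero]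
    · rw [hE.supp hμ, Matrix.zero_mulVec, h3]
      exact (Finset.sum_eq_zero fun ν hν => h1 ν hν fun h => hμ (h ▸ hν)).symm
  · rintro _ ⟨v, rfl⟩
    rw [Module.End.mem_eigenspace_iff, Matrix.toLin'_apply, Matrix.toLin'_apply, Matrix.mulVec_mulVec, hE.l_mul,
      Matrix.smul_mulVec]

theorem SD.finrank_eig98 (hE : SD h E Λ) (μ : ℝ) :
    finrank ℂ (Module.End.eigenspace (Matrix.toLin' h) (μ : ℂ)) = (E μ).rank := by
  rw [hE.eig98]
  rfl

theorem SD.iSup_eig98 (hE : SD h E Λ) : (⨆ c : ℂ, Module.End.eigenspace (Matrix.toLin' h) c) = ⊤ := by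
  rw [eq_top_iff]
  intro v _
  have h3 : v = ∑ ν ∈ Λ, E ν *ᵥ v := by
    rw [← Matrix.sum_mulVec, hE.sum, Matrix.one_mulVec]
  rw [h3]
  refine Submodule.sum_mem _ fun ν _ => ?_
  have h4 : E ν *ᵥ v ∈ Module.End.eigenspace (Matrix.toLin' h) (ν : ℂ) := by
    rw [hE.eig98]
    exact ⟨v, by rw [Matrix.toLin'_apply]⟩
  exact (le_iSup (fun c : ℂ => Module.End.eigenspace (Matrix.toLin' h) c) (ν : ℂ)) h4

/-- `Core` from the theorem on Lie subalgebras of endomorphisms. -/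
theorem core_of98 {m : ℤ} {r : ℤ → ℕ} (h2 : 2 ≤ Fintype.card n) (hM : ∃ q, 2 ≤ r q)
    (core : ∀ ω : LinearMap.BilinForm ℂ (n → ℂ), ω.IsSymm → ω.Nondegenerate →
      ∀ L : LieSubalgebra ℂ (Module.End ℂ (n → ℂ)), LieAlgebra.IsSimple ℂ L →
      (∀ W : Submodule ℂ (n → ℂ), (∀ x ∈ L, ∀ u ∈ W, x u ∈ W) → W = ⊥ ∨ W = ⊤) →
      (∀ x ∈ L, ∀ u v, ω (x u) v = -ω u (x v)) →
      (∀ x : Module.End ℂ (n → ℂ), (∀ u v, ω (x u) v = -ω u (x v)) → x ∈ L) ∨
        ∀ h ∈ L, h ≠ 0 → (⨆ c : ℂ, Module.End.eigenspace h c) = ⊤ →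
          ∀ c : ℂ, finrank ℂ (Module.End.eigenspace h c) ≤ 1)
    (h0 : r m ≠ Fintype.card n) : Core n m r := by
  intro Q' Qi hQ hQ1 hQ2 L hbr hirr hsk hs h E Λ hh hE hint hr X hX
  rcases core (Matrix.toBilin' Q') (form_symm98 hQ) (form_nondeg98 hQ1) (lieOf L hbr) (lieOf_simple hirr h2 hs)
    (lieOf_irr hirr) (lieOf_sk hsk) with h3 | h3
  · have h4 : Matrix.toLin' X ∈ lieOf L hbr := by
      apply h3
      intro u v
      rw [Matrix.toLin'_apply, Matrix.toLin'_apply]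
      exact skew_iff98.1 hX u v
    rw [mem_lieOf, LinearMap.toMatrix'_toLin'] at h4
    exact h4
  · exfalso
    obtain ⟨q, hq⟩ := hM
    have hne : Matrix.toLin' h ≠ 0 := by
      intro h5
      apply h0
      have h6 : h = 0 := (LinearEquiv.map_eq_zero_iff _).1 h5
      have h7 := hE.finrank_eig98 0
      rw [h5] at h7
      have h8 : Module.End.eigenspace (0 : Module.End ℂ (n → ℂ)) ((0 : ℝ) : ℂ) = ⊤ := by
        rw [eq_top_iff]
        intro v _
        rw [Module.End.mem_eigenspace_iff]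
        simp
      rw [h8, finrank_top, Module.finrank_fintype_fun_eq_card] at h7
      rw [← hr m, h7, sub_self, Int.cast_zero]
    have h5 := h3 _ (toLin_mem_lieOf hh) hne hE.iSup_eig98 (((q - m : ℤ) : ℝ) : ℂ)
    rw [hE.finrank_eig98, hr] at h5
    omega

end MH
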