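import Pool.Agent.Helper21.MH.Cnt

/-!
Project PF (MP_b8862a_ag): the predicate that links the Lie algebra theorem with the Mumford-Tate group and the
Galois representation.
-/

open Matrix

namespace MH

/-- `L` has no proper ideals. -/
def Smp {n : Type*} [Fintype n] [DecidableEq n] (L : Submodule ℂ (Matrix n n ℂ)) : Prop :=
  ∀ K ≤ L, (∀ X ∈ L, ∀ Y ∈ K, X * Y - Y * X ∈ K) → K = ⊥ ∨ K = L

/-- A simple irreducible Lie algebra of matrices that are skew for a symmetric form and that contains a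
diagonalisable element with the eigenvalues `p - m` and the multiplicities `r p` contains all skew matrices. -/
def Core (n : Type*) [Fintype n] [DecidableEq n] (m : ℤ) (r : ℤ → ℕ) : Prop :=
  ∀ Q' Qi : Matrix n n ℂ, Q'ᵀ = Q' → Q' * Qi = 1 → Qi * Q' = 1 →
    ∀ L : Submodule ℂ (Matrix n n ℂ), (∀ X ∈ L, ∀ Y ∈ L, X * Y - Y * X ∈ L) →
      (∀ W : Submodule ℂ (n → ℂ), (∀ X ∈ L, ∀ w ∈ W, X *ᵥ w ∈ W) → W = ⊥ ∨ W = ⊤) →
      (∀ X ∈ L, Xᵀ * Q' + Q' * X = 0) → Smp L →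
    ∀ (h : Matrix n n ℂ) (E : ℝ → Matrix n n ℂ) (Λ : Finset ℝ), h ∈ L → SD h E Λ →
      (∀ μ : ℝ, E μ ≠ 0 → ∃ p : ℤ, μ = ((p - m : ℤ) : ℝ)) →
      (∀ p : ℤ, (E ((p - m : ℤ) : ℝ)).rank = r p) →
    ∀ X : Matrix n n ℂ, Xᵀ * Q' + Q' * X = 0 → X ∈ L

end MH
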