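import Pool.Agent.Helper55.NI.Pal
import Pool.Agent.Helper98.MH.Idl
import Pool.Agent.Helper98.PF.Core

/-!
Project PF (MP_b8862a_ag), block D: the ideals of a self-adjoint irreducible Lie algebra `L` of skew matrices.
Ideals are self-adjoint; `h` lies in an ideal or in its complement if the multiplicities are indecomposable;
a minimal ideal that contains `h`; if the multiplicities have no common divisor, `L` is simple.
-/

open Matrix

namespace MH

variable {n : Type*} [Fintype n] [DecidableEq n]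
variable {h : Matrix n n ℂ} {E : ℝ → Matrix n n ℂ} {Λ : Finset ℝ}
variable {τ : Matrix n n ℂ →ₗ[ℂ] Matrix n n ℂ} {L : Submodule ℂ (Matrix n n ℂ)}

namespace Dat

variable (D : Dat τ L h E Λ)
include D

lemma tr_zero98 {x : Matrix n n ℂ} (hx : x ∈ L) : x.trace = 0 := by
  have h1 := D.inv.tr x
  rw [D.sk x hx, trace_neg] at h1
  have h2 : (2 : ℂ) * x.trace = 0 := by linear_combination -h1
  exact (mul_eq_zero.mp h2).resolve_left two_ne_zero

/-- an element of `L` that commutes with `L` is zero -/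
lemma cen_zero98 {x : Matrix n n ℂ} (hx : x ∈ L) (hc : ∀ y ∈ L, x * y = y * x) : x = 0 := by
  obtain ⟨c, hc⟩ := D.irr x hc
  have h1 := D.tr_zero98 hx
  rw [hc, trace_smul, trace_one, smul_eq_mul] at h1
  rcases mul_eq_zero.mp h1 with h2 | h2
  · rw [hc, h2, zero_smul]
  · have h3 : Fintype.card n = 0 := by exact_mod_cast h2
    have h4 := Fintype.card_eq_zero_iff.mp h3
    ext i j
    exact h4.elim i

/-- every ideal of `L` is self-adjoint -/
theorem isI_of {K : Submodule ℂ (Matrix n n ℂ)} (hK : K ≤ L)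
    (hid : ∀ X ∈ L, ∀ Y ∈ K, X * Y - Y * X ∈ K) : IsI L K := by
  -- the complement is an ideal
  have hP : ∀ x ∈ L, ∀ w ∈ pp L K, x * w - w * x ∈ pp L K := by
    rintro x hx w ⟨hw, hw'⟩
    refine ⟨D.br x hx w hw, fun y hy => ?_⟩
    have h2 := hw' _ (hid _ (D.st x hx) y hy)
    rw [conjTranspose_sub, conjTranspose_mul, conjTranspose_mul, conjTranspose_conjTranspose,
      sub_mul, Matrix.trace_sub] at h2
    rw [mul_sub, Matrix.trace_sub, ← mul_assoc, ← mul_assoc, Matrix.trace_mul_comm (yᴴ * w) x,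
      ← mul_assoc]
    exact h2
  have hdis : ∀ x ∈ K, x ∈ pp L K → x = 0 := fun x h1 h2 => IsI.disj h1 h2
  have hcom : ∀ a ∈ K, ∀ w ∈ pp L K, a * w = w * a := by
    intro a ha w hw
    have h1 : a * w - w * a ∈ pp L K := hP a (hK ha) w hw
    have h2 : a * w - w * a ∈ K := by
      have := K.neg_mem (hid w hw.1 a ha)
      rwa [neg_sub] at this
    exact sub_eq_zero.1 (hdis _ h2 h1)
  -- `Kᴴ ∩ P = 0`
  have hC : ∀ y ∈ pp L K, yᴴ ∈ K → y = 0 := by
    intro y hy hy'
    refine D.cen_zero98 hy.1 fun z hz => ?_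
    have h1 : z * y - y * z ∈ pp L K := hP z hz y hy
    have h2 : (z * y - y * z)ᴴ ∈ K := by
      rw [conjTranspose_sub, conjTranspose_mul, conjTranspose_mul]
      have := K.neg_mem (hid _ (D.st z hz) _ hy')
      rwa [neg_sub] at this
    have h3 : ((z * y - y * z)ᴴ * (z * y - y * z)).trace = 0 := by
      have e1 := hcom _ h2 y hy
      generalize (z * y - y * z)ᴴ = w at e1
      rw [mul_sub, Matrix.trace_sub, ← mul_assoc, ← mul_assoc, e1, Matrix.trace_mul_comm (w * z) y, mul_assoc, sub_self]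
    have h4 : z * y - y * z = 0 := by
      apply eq_zero_of_trace
      rw [h3]; rfl
    exact (sub_eq_zero.1 h4).symm
  refine ⟨hK, hid, fun x hx => ?_⟩
  have hxs : ∀ w ∈ pp L K, xᴴ * w = w * xᴴ := by
    intro w hw
    have h1 : w * xᴴ - xᴴ * w ∈ pp L K := by
      have := (pp L K).neg_mem (hP _ (D.st x (hK hx)) w hw)
      rwa [neg_sub] at this
    have h2 : (w * xᴴ - xᴴ * w)ᴴ ∈ K := by
      rw [conjTranspose_sub, conjTranspose_mul, conjTranspose_mul, conjTranspose_conjTranspose]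
      have := K.neg_mem (hid _ (D.st w hw.1) x hx)
      rwa [neg_sub] at this
    exact (sub_eq_zero.1 (hC _ h1 h2)).symm
  obtain ⟨u, hu, hu'⟩ := decomp (I := K) xᴴ
  have hy : xᴴ - u ∈ pp L K := ⟨L.sub_mem (D.st x (hK hx)) (hK hu), hu'⟩
  have h0 : xᴴ - u = 0 := by
    refine D.cen_zero98 hy.1 fun z hz => ?_
    obtain ⟨a, ha, ha'⟩ := decomp (I := K) z
    have hb : z - a ∈ pp L K := ⟨L.sub_mem hz (hK ha), ha'⟩
    have e1 := hcom a ha _ hy
    have e2 : (xᴴ - u) * (z - a) = (z - a) * (xᴴ - u) := by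
      rw [sub_mul, mul_sub (z - a), hxs _ hb, hcom u hu _ hb]
    have e3 : z = a + (z - a) := by abel
    rw [e3, mul_add, add_mul, e1, e2]
  rw [sub_eq_zero.1 h0]
  exact hu

/-- the algebra generated by an ideal has trivial centre -/
theorem adj_cen {K : Submodule ℂ (Matrix n n ℂ)} (hK : IsI L K) {a : Matrix n n ℂ}
    (ha : a ∈ Algebra.adjoin ℂ (K : Set (Matrix n n ℂ)))
    (hc : ∀ b ∈ Algebra.adjoin ℂ (K : Set (Matrix n n ℂ)), a * b = b * a) : ∃ c : ℂ, a = c • (1 : Matrix n n ℂ) := by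
  refine D.irr a fun x hx => ?_
  obtain ⟨j, hj, hj'⟩ := decomp (I := K) x
  have hk : x - j ∈ pp L K := ⟨L.sub_mem hx (hK.le hj), hj'⟩
  have e1 := hc j (Algebra.subset_adjoin hj)
  have e2 := adj_comm (fun b hb => hK.comm D.isI hb hk) ha
  have e3 : x = j + (x - j) := by abel
  rw [e3, mul_add, add_mul, e1, e2]

omit D in
/-- the algebra generated by an ideal is normalised by `L` -/
theorem adj_nrm {K : Submodule ℂ (Matrix n n ℂ)} (hK : IsI L K) {x a : Matrix n n ℂ} (hx : x ∈ L)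
    (ha : a ∈ Algebra.adjoin ℂ (K : Set (Matrix n n ℂ))) :
    x * a - a * x ∈ Algebra.adjoin ℂ (K : Set (Matrix n n ℂ)) := by
  induction ha using Algebra.adjoin_induction with
  | mem y hy => exact Algebra.subset_adjoin (hK.br x hx y hy)
  | algebraMap c =>
    rw [Algebra.commutes c x, sub_self]
    exact zero_mem _
  | add y z _ _ hy hz =>
    have e1 : x * (y + z) - (y + z) * x = (x * y - y * x) + (x * z - z * x) := by noncomm_ring
    rw [e1]
    exact add_mem hy hz
  | mul y z hy' hz' hy hz =>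
    have e1 : x * (y * z) - y * z * x = (x * y - y * x) * z + y * (x * z - z * x) := by noncomm_ring
    rw [e1]
    exact add_mem (mul_mem hy hz') (mul_mem hy' hz)

/-- `h` lies in an ideal or in its complement (eigenvalues `2 p - w`, a symmetric or alternating form) -/
theorem h_mem_orW [Nonempty n] {F Fi : Matrix n n ℂ} (f1 : F * Fi = 1) (f2 : Fi * F = 1) {c : ℂ} (hc : c * c = 1)
    (hF : Fᵀ = c • F) (hτ : ∀ x, τ x = Fi * xᵀ * F) {w : ℤ}
    (hw : ∀ μ : ℝ, E μ ≠ 0 → ∃ p : ℤ, μ = ((2 * p - w : ℤ) : ℝ))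
    (hI : NI.Indec w (fun p : ℤ => (E ((2 * p - w : ℤ) : ℝ)).rank)) {K : Submodule ℂ (Matrix n n ℂ)} (hK : IsI L K) :
    h ∈ K ∨ h ∈ pp L K := by
  classical
  obtain ⟨k, hk, hk'⟩ := decomp (I := K) h
  have hp : h - k ∈ pp L K := ⟨L.sub_mem D.mem (hK.le hk), hk'⟩
  have hτA : ∀ a ∈ Algebra.adjoin ℂ (K : Set (Matrix n n ℂ)), Fi * aᵀ * F ∈ Algebra.adjoin ℂ (K : Set (Matrix n n ℂ)) := by
    intro a ha
    rw [← hτ]
    induction ha using Algebra.adjoin_induction with
    | mem y hy =>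
      rw [D.sk y (hK.le hy)]
      exact neg_mem (Algebra.subset_adjoin hy)
    | algebraMap c =>
      rw [Algebra.algebraMap_eq_smul_one, map_smul, D.inv.one]
      exact Subalgebra.smul_mem _ (one_mem _) _
    | add y z _ _ hy hz => rw [map_add]; exact add_mem hy hz
    | mul y z _ _ hy hz => rw [D.inv.mul]; exact mul_mem hz hy
  have key := NI.dich D.spec (Algebra.adjoin ℂ (K : Set (Matrix n n ℂ))) (fun a ha => adj_star hK.st ha)
    (fun a ha hc => D.adj_cen hK ha hc) (fun a ha => adj_nrm hK D.mem ha) f1 f2 hc hF hτA (by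
      rw [← hτ, D.sk h D.mem]) w (by
      intro μ hμ
      obtain ⟨p, hp⟩ := hw _ hμ
      refine ⟨p, ?_⟩
      rw [hp]
      push_cast
      ring) (by
      have e1 : (fun p : ℤ => (E (2 * (p : ℝ) - (w : ℝ))).rank) = fun p : ℤ => (E ((2 * p - w : ℤ) : ℝ)).rank := by
        funext p
        congr 2
        push_cast
        ring
      rw [e1]
      exact hI)
  rcases key with h1 | h1
  · right
    have hk0 : k = 0 := by
      refine D.cen_zero98 (hK.le hk) fun z hz => ?_
      obtain ⟨a, ha, ha'⟩ := decomp (I := K) z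
      have hb : z - a ∈ pp L K := ⟨L.sub_mem hz (hK.le ha), ha'⟩
      have e1 : k * a = a * k := by
        have e3 : h * a = a * h := h1 a (Algebra.subset_adjoin ha)
        have e4 := hK.comm D.isI ha hp
        rw [mul_sub, sub_mul, e3] at e4
        exact (sub_right_injective e4).symm
      have e2 := hK.comm D.isI hk hb
      have e3 : z = a + (z - a) := by abel
      rw [e3, mul_add, add_mul, e1, e2]
    rwa [hk0, sub_zero] at hp
  · left
    have hk0 : h - k = 0 := by
      refine D.cen_zero98 hp.1 fun z hz => ?_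
      obtain ⟨a, ha, ha'⟩ := decomp (I := K) z
      have hb : z - a ∈ pp L K := ⟨L.sub_mem hz (hK.le ha), ha'⟩
      have e2 := h1 (z - a) (fun c hc => (adj_comm (fun b hb' => hK.comm D.isI hb' hb) hc).symm)
      have e3 := hK.comm D.isI hk hb
      have e4 := hK.comm D.isI ha hp
      have e5 : z = a + (z - a) := by abel
      have e6 : (h - k) * (z - a) = (z - a) * (h - k) := by rw [sub_mul h k, mul_sub (z - a) h k, e2, e3]
      rw [e5, mul_add, add_mul, ← e4, e6]
    rw [sub_eq_zero.1 hk0]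
    exact hk

/-- `h` lies in an ideal or in its complement -/
theorem h_mem_or [Nonempty n] {F Fi : Matrix n n ℂ} (f1 : F * Fi = 1) (f2 : Fi * F = 1) (hF : Fᵀ = F)
    (hτ : ∀ x, τ x = Fi * xᵀ * F) {m : ℤ} (hw : ∀ μ : ℝ, E μ ≠ 0 → ∃ p : ℤ, μ = ((p - m : ℤ) : ℝ))
    (hI : NI.Indec (2 * m) (fun p : ℤ => (E ((p - m : ℤ) : ℝ)).rank)) {K : Submodule ℂ (Matrix n n ℂ)} (hK : IsI L K) :
    h ∈ K ∨ h ∈ pp L K := by
  classical
  obtain ⟨k, hk, hk'⟩ := decomp (I := K) h
  have hp : h - k ∈ pp L K := ⟨L.sub_mem D.mem (hK.le hk), hk'⟩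
  -- the element `2 h`
  have S' : Spec ((2 : ℂ) • h) (fun μ => E (μ / 2)) (Λ.image fun μ => 2 * μ) := by
    refine ⟨fun μ => D.spec.star _, ?_, ?_, ?_, ?_⟩
    · intro μ ν
      rw [D.spec.mul]
      have : (μ / 2 = ν / 2) ↔ μ = ν := by
        constructor
        · intro h1; linarith
        · intro h1; rw [h1]
      simp only [this]
    · intro μ hμ
      apply D.spec.supp
      intro h1
      apply hμ
      rw [Finset.mem_image]
      exact ⟨μ / 2, h1, by ring⟩
    · rw [Finset.sum_image (fun a _ b _ (hab : 2 * a = 2 * b) => by linarith)]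
      simp only [mul_div_cancel_left₀ _ (two_ne_zero : (2 : ℝ) ≠ 0)]
      exact D.spec.sum
    · rw [Finset.sum_image (fun a _ b _ (hab : 2 * a = 2 * b) => by linarith)]
      simp only [mul_div_cancel_left₀ _ (two_ne_zero : (2 : ℝ) ≠ 0)]
      conv_lhs => rw [D.spec.eq]
      rw [Finset.smul_sum]
      refine Finset.sum_congr rfl fun μ _ => ?_
      rw [smul_smul]
      push_cast
      rfl
  have hτA : ∀ a ∈ Algebra.adjoin ℂ (K : Set (Matrix n n ℂ)), Fi * aᵀ * F ∈ Algebra.adjoin ℂ (K : Set (Matrix n n ℂ)) := by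
    intro a ha
    rw [← hτ]
    induction ha using Algebra.adjoin_induction with
    | mem y hy =>
      rw [D.sk y (hK.le hy)]
      exact neg_mem (Algebra.subset_adjoin hy)
    | algebraMap c =>
      rw [Algebra.algebraMap_eq_smul_one, map_smul, D.inv.one]
      exact Subalgebra.smul_mem _ (one_mem _) _
    | add y z _ _ hy hz => rw [map_add]; exact add_mem hy hz
    | mul y z _ _ hy hz => rw [D.inv.mul]; exact mul_mem hz hy
  have key := NI.dich S' (Algebra.adjoin ℂ (K : Set (Matrix n n ℂ))) (fun a ha => adj_star hK.st ha)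
    (fun a ha hc => D.adj_cen hK ha hc) (fun a ha => by
      have := adj_nrm hK D.mem ha
      rw [smul_mul_assoc, mul_smul_comm, ← smul_sub]
      exact Subalgebra.smul_mem _ this _) f1 f2 (c := 1) (by ring) (by rw [one_smul, hF]) hτA (by
      rw [Matrix.transpose_smul, Matrix.mul_smul, Matrix.smul_mul, ← hτ, D.sk h D.mem, smul_neg]) (2 * m) (by
      intro μ hμ
      obtain ⟨p, hp⟩ := hw _ hμ
      refine ⟨p, ?_⟩
      push_cast at hp ⊢
      linarith) (by
      have e1 : (fun p : ℤ => (E ((2 * (p : ℝ) - ((2 * m : ℤ) : ℝ)) / 2)).rank) =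
          fun p : ℤ => (E ((p - m : ℤ) : ℝ)).rank := by
        funext p
        congr 2
        push_cast
        ring
      rw [e1]
      exact hI)
  rcases key with h1 | h1
  · right
    have hk0 : k = 0 := by
      refine D.cen_zero98 (hK.le hk) fun z hz => ?_
      obtain ⟨a, ha, ha'⟩ := decomp (I := K) z
      have hb : z - a ∈ pp L K := ⟨L.sub_mem hz (hK.le ha), ha'⟩
      have e1 : k * a = a * k := by
        have e2 := h1 a (Algebra.subset_adjoin ha)
        rw [smul_mul_assoc, mul_smul_comm] at e2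
        have e3 : h * a = a * h := smul_right_injective _ (two_ne_zero : (2 : ℂ) ≠ 0) e2
        have e4 := hK.comm D.isI ha hp
        rw [mul_sub, sub_mul, e3] at e4
        exact (sub_right_injective e4).symm
      have e2 := hK.comm D.isI hk hb
      have e3 : z = a + (z - a) := by abel
      rw [e3, mul_add, add_mul, e1, e2]
    rwa [hk0, sub_zero] at hp
  · left
    have hk0 : h - k = 0 := by
      refine D.cen_zero98 hp.1 fun z hz => ?_
      obtain ⟨a, ha, ha'⟩ := decomp (I := K) z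
      have hb : z - a ∈ pp L K := ⟨L.sub_mem hz (hK.le ha), ha'⟩
      have e1 := h1 (z - a) (fun c hc => (adj_comm (fun b hb' => hK.comm D.isI hb' hb) hc).symm)
      rw [smul_mul_assoc, mul_smul_comm] at e1
      have e2 : (z - a) * h = h * (z - a) := smul_right_injective _ (two_ne_zero : (2 : ℂ) ≠ 0) e1
      have e3 := hK.comm D.isI hk hb
      have e4 := hK.comm D.isI ha hp
      have e5 : z = a + (z - a) := by abel
      have e6 : (h - k) * (z - a) = (z - a) * (h - k) := by rw [sub_mul h k, mul_sub (z - a) h k, e2, e3]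
      rw [e5, mul_add, add_mul, ← e4, e6]
    rw [sub_eq_zero.1 hk0]
    exact hk

/-- a minimal ideal that contains `h` -/
theorem exists_min98 : ∃ J : Submodule ℂ (Matrix n n ℂ), IsI L J ∧ h ∈ J ∧
    ∀ I : Submodule ℂ (Matrix n n ℂ), IsI L I → I ≤ J → h ∈ I → I = J := by
  classical
  have hex : ∃ r : ℕ, ∃ J : Submodule ℂ (Matrix n n ℂ), IsI L J ∧ h ∈ J ∧ Module.finrank ℂ J = r :=
    ⟨_, L, D.isI, D.mem, rfl⟩
  obtain ⟨J, hJ, hy, hr⟩ := Nat.find_spec hex
  refine ⟨J, hJ, hy, fun I hI hle hyI => ?_⟩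
  have h1 : Nat.find hex ≤ Module.finrank ℂ I := Nat.find_min' hex ⟨I, hI, hyI, rfl⟩
  exact Submodule.eq_of_le_of_finrank_le hle (by rw [hr]; exact h1)

/-- the minimal ideal that contains `h` has no proper ideals -/
theorem min_simple_or (hor : ∀ K : Submodule ℂ (Matrix n n ℂ), IsI L K → h ∈ K ∨ h ∈ pp L K)
    {J : Submodule ℂ (Matrix n n ℂ)} (hJ : IsI L J)
    (hh : h ∈ J) (hmin : ∀ I : Submodule ℂ (Matrix n n ℂ), IsI L I → I ≤ J → h ∈ I → I = J)
    {I : Submodule ℂ (Matrix n n ℂ)} (hle : I ≤ J) (hid : ∀ X ∈ L, ∀ Y ∈ I, X * Y - Y * X ∈ I) : I = ⊥ ∨ I = J := by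
  have hI' : IsI L I := D.isI_of (hle.trans hJ.le) hid
  rcases hor I hI' with h1 | h1
  · right
    exact hmin I hI' hle h1
  · left
    have h2 : J ⊓ pp L I = J := hmin _ (hJ.inf (hI'.perp D.isI)) inf_le_left ⟨hh, h1⟩
    rw [eq_bot_iff]
    intro x hx
    have h3 : x ∈ J ⊓ pp L I := by
      rw [h2]
      exact hle hx
    rw [Submodule.mem_bot]
    exact IsI.disj hx h3.2

/-- the minimal ideal that contains `h` has no proper ideals -/
theorem min_simple [Nonempty n] {F Fi : Matrix n n ℂ} (f1 : F * Fi = 1) (f2 : Fi * F = 1) (hF : Fᵀ = F)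
    (hτ : ∀ x, τ x = Fi * xᵀ * F) {m : ℤ} (hw : ∀ μ : ℝ, E μ ≠ 0 → ∃ p : ℤ, μ = ((p - m : ℤ) : ℝ))
    (hI : NI.Indec (2 * m) (fun p : ℤ => (E ((p - m : ℤ) : ℝ)).rank)) {J : Submodule ℂ (Matrix n n ℂ)} (hJ : IsI L J)
    (hh : h ∈ J) (hmin : ∀ I : Submodule ℂ (Matrix n n ℂ), IsI L I → I ≤ J → h ∈ I → I = J)
    {I : Submodule ℂ (Matrix n n ℂ)} (hle : I ≤ J) (hid : ∀ X ∈ L, ∀ Y ∈ I, X * Y - Y * X ∈ I) : I = ⊥ ∨ I = J :=
  D.min_simple_or (fun _ hK => D.h_mem_or f1 f2 hF hτ hw hI hK) hJ hh hmin hle hid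

end Dat

/-- the eigenprojections commute with what commutes with `h` -/
lemma Spec.comm_E (S : Spec h E Λ) {T : Matrix n n ℂ} (hT : T * h = h * T) (μ : ℝ) : T * E μ = E μ * T := by
  have h1 : ∀ ν, ν ≠ μ → E ν * T * E μ = 0 := by
    intro ν hν
    have e1 : E ν * (T * h) * E μ = (μ : ℂ) • (E ν * T * E μ) := by
      rw [← mul_assoc, mul_assoc (E ν * T), S.h_mul, mul_smul_comm]
    have e2 : E ν * (h * T) * E μ = (ν : ℂ) • (E ν * T * E μ) := by
      rw [← mul_assoc, S.mul_h, smul_mul_assoc, smul_mul_assoc]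
    rw [hT, e2] at e1
    have e3 : ((ν : ℂ) - μ) • (E ν * T * E μ) = 0 := by rw [sub_smul, e1, sub_self]
    rcases smul_eq_zero.1 e3 with e4 | e4
    · exact absurd (by exact_mod_cast sub_eq_zero.1 e4) hν
    · exact e4
  have h2 : ∀ ν, ν ≠ μ → E μ * T * E ν = 0 := by
    intro ν hν
    have e1 : E μ * (T * h) * E ν = (ν : ℂ) • (E μ * T * E ν) := by
      rw [← mul_assoc, mul_assoc (E μ * T), S.h_mul, mul_smul_comm]
    have e2 : E μ * (h * T) * E ν = (μ : ℂ) • (E μ * T * E ν) := by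
      rw [← mul_assoc, S.mul_h, smul_mul_assoc, smul_mul_assoc]
    rw [hT, e2] at e1
    have e3 : ((μ : ℂ) - ν) • (E μ * T * E ν) = 0 := by rw [sub_smul, e1, sub_self]
    rcases smul_eq_zero.1 e3 with e4 | e4
    · exact absurd (by exact_mod_cast sub_eq_zero.1 e4) (Ne.symm hν)
    · exact e4
  by_cases hμ : μ ∈ Λ
  · have e1 : T * E μ = E μ * T * E μ := by
      conv_lhs => rw [← one_mul (T * E μ), ← S.sum, Finset.sum_mul]
      rw [Finset.sum_eq_single_of_mem μ hμ]
      · rw [mul_assoc]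
      · intro ν _ hν
        rw [← mul_assoc, h1 ν hν]
    have e2 : E μ * T = E μ * T * E μ := by
      conv_lhs => rw [← mul_one (E μ * T), ← S.sum, Finset.mul_sum]
      rw [Finset.sum_eq_single_of_mem μ hμ]
      intro ν _ hν
      exact h2 ν hν
    rw [e1, ← e2]
  · rw [S.supp μ hμ, mul_zero, zero_mul]

private lemma comm_kr {d q : ℕ} (k0 : Fin q) (M : Matrix (Fin d × Fin q) (Fin d × Fin q) ℂ)
    (hM : ∀ Z : Matrix (Fin q) (Fin q) ℂ, M * kroneckerMap (· * ·) (1 : Matrix (Fin d) (Fin d) ℂ) Z =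
      kroneckerMap (· * ·) (1 : Matrix (Fin d) (Fin d) ℂ) Z * M) :
    M = kroneckerMap (· * ·) (Matrix.of fun i j => M (i, k0) (j, k0)) (1 : Matrix (Fin q) (Fin q) ℂ) := by
  have key : ∀ (i j : Fin d) (a b k l : Fin q), (if l = b then M (i, a) (j, k) else 0) = if a = k then M (i, l) (j, b) else 0 := by
    intro i j a b k l
    have e1 := congrFun (congrFun (hM (Matrix.of fun x y => if x = k ∧ y = l then 1 else 0)) (i, a)) (j, b)
    rw [Matrix.mul_apply, Matrix.mul_apply, Fintype.sum_prod_type, Fintype.sum_prod_type] at e1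
    have e2 : ∑ x, ∑ y, M (i, a) (x, y) * kroneckerMap (· * ·) (1 : Matrix (Fin d) (Fin d) ℂ)
        (Matrix.of fun x y => if x = k ∧ y = l then (1 : ℂ) else 0) (x, y) (j, b) = if l = b then M (i, a) (j, k) else 0 := by
      rw [Finset.sum_eq_single j, Finset.sum_eq_single k]
      · rw [kroneckerMap_apply, Matrix.one_apply_eq, of_apply]
        by_cases hlb : l = b
        · simp [hlb]
        · simp [hlb, Ne.symm hlb]
      · intro y _ hy
        rw [kroneckerMap_apply, of_apply, if_neg (fun h => hy h.1), mul_zero, mul_zero]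
      · intro h; exact absurd (Finset.mem_univ k) h
      · intro x _ hx
        refine Finset.sum_eq_zero fun y _ => ?_
        rw [kroneckerMap_apply, Matrix.one_apply_ne hx, zero_mul, mul_zero]
      · intro h; exact absurd (Finset.mem_univ j) h
    have e3 : ∑ x, ∑ y, kroneckerMap (· * ·) (1 : Matrix (Fin d) (Fin d) ℂ)
        (Matrix.of fun x y => if x = k ∧ y = l then (1 : ℂ) else 0) (i, a) (x, y) * M (x, y) (j, b) =
        if a = k then M (i, l) (j, b) else 0 := by
      rw [Finset.sum_eq_single i, Finset.sum_eq_single l]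
      · rw [kroneckerMap_apply, Matrix.one_apply_eq, of_apply]
        by_cases hak : a = k
        · simp [hak]
        · simp [hak]
      · intro y _ hy
        rw [kroneckerMap_apply, of_apply, if_neg (fun h => hy h.2), mul_zero, zero_mul]
      · intro h; exact absurd (Finset.mem_univ l) h
      · intro x _ hx
        refine Finset.sum_eq_zero fun y _ => ?_
        rw [kroneckerMap_apply, Matrix.one_apply_ne (Ne.symm hx), zero_mul, zero_mul]
      · intro h; exact absurd (Finset.mem_univ i) h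
    rw [e2, e3] at e1
    exact e1
  ext ⟨i, a⟩ ⟨j, k⟩
  rw [kroneckerMap_apply, of_apply, Matrix.one_apply]
  by_cases hak : a = k
  · subst hak
    have := key i j a k0 a k0
    simp only [if_true] at this
    rw [if_pos rfl, mul_one, this]
  · have := key i j a k0 k k0
    simp only [if_true, if_neg hak] at this
    rw [if_neg hak, mul_zero, this]

/-- a self-adjoint algebra with trivial centre that contains `h`: dimension and multiplicities -/
theorem alg_rank [Nonempty n] (S : Spec h E Λ) (A : Subalgebra ℂ (Matrix n n ℂ)) (hst : ∀ a ∈ A, aᴴ ∈ A)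
    (hcen : ∀ a ∈ A, (∀ b ∈ A, a * b = b * a) → ∃ c : ℂ, a = c • (1 : Matrix n n ℂ)) (hh : h ∈ A) :
    ∃ d q : ℕ, 1 ≤ d ∧ 1 ≤ q ∧ Fintype.card n = d * q ∧ Module.finrank ℂ A = d * d ∧ ∀ μ, q ∣ (E μ).rank := by
  classical
  obtain ⟨d, q, e, U, hd, hq, h1, h2, hA⟩ := OW.coord A hst hcen
  obtain ⟨i0⟩ : Nonempty (Fin d) := ⟨⟨0, by omega⟩⟩
  obtain ⟨k0⟩ : Nonempty (Fin q) := ⟨⟨0, by omega⟩⟩
  have hA' : ∀ T : Matrix n n ℂ, T ∈ A ↔ ∃ C : Matrix (Fin d) (Fin d) ℂ,
      T = NI.emb U e (kroneckerMap (· * ·) C (1 : Matrix (Fin q) (Fin q) ℂ)) := by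
    intro T
    rw [hA]
    constructor
    · rintro ⟨C, hC⟩
      refine ⟨C, ?_⟩
      rw [← NI.emb_coord (e := e) h2 T, hC, submatrix_submatrix, Equiv.self_comp_symm, submatrix_id_id]
    · rintro ⟨C, rfl⟩
      exact ⟨C, NI.coord_emb h1 _⟩
  refine ⟨d, q, hd, hq, ?_, ?_, ?_⟩
  · rw [Fintype.card_congr e, Fintype.card_prod, Fintype.card_fin, Fintype.card_fin]
  · have hinj : ∀ C : Matrix (Fin d) (Fin d) ℂ,
        NI.emb U e (kroneckerMap (· * ·) C (1 : Matrix (Fin q) (Fin q) ℂ)) = 0 → C = 0 := by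
      intro C hC
      have e1 : kroneckerMap (· * ·) C (1 : Matrix (Fin q) (Fin q) ℂ) = 0 := by
        apply NI.emb_inj (e := e) h1
        rw [hC]
        unfold NI.emb
        rw [submatrix_zero, Pi.zero_apply, Pi.zero_apply, Matrix.mul_zero, Matrix.zero_mul]
      ext i j
      have e2 := congrFun (congrFun e1 (i, k0)) (j, k0)
      rw [kroneckerMap_apply, Matrix.one_apply_eq, mul_one] at e2
      exact e2
    let f : Matrix (Fin d) (Fin d) ℂ →ₗ[ℂ] Subalgebra.toSubmodule A :=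
      { toFun := fun C => ⟨NI.emb U e (kroneckerMap (· * ·) C (1 : Matrix (Fin q) (Fin q) ℂ)), (hA' _).2 ⟨C, rfl⟩⟩
        map_add' := by
          intro C C'
          apply Subtype.ext
          show NI.emb U e _ = NI.emb U e _ + NI.emb U e _
          rw [← NI.emb_add]
          congr 1
          ext i j
          simp [add_mul]
        map_smul' := by
          intro c C
          apply Subtype.ext
          show NI.emb U e _ = c • NI.emb U e _
          rw [← NI.emb_smul]
          congr 1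
          ext i j
          simp [mul_assoc] }
    have hf : Function.Bijective f := by
      constructor
      · rw [← LinearMap.ker_eq_bot, LinearMap.ker_eq_bot']
        intro C hC
        exact hinj C (congrArg Subtype.val hC)
      · rintro ⟨T, hT⟩
        obtain ⟨C, rfl⟩ := (hA' _).1 hT
        exact ⟨C, rfl⟩
    have e1 := (LinearEquiv.ofBijective f hf).finrank_eq
    rw [Module.finrank_matrix, Fintype.card_fin, Module.finrank_self, mul_one] at e1
    exact e1.symm
  · intro μ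
    obtain ⟨M, hM⟩ : ∃ M : Matrix (Fin d × Fin q) (Fin d × Fin q) ℂ, NI.emb U e M = E μ := ⟨_, NI.emb_coord h2 _⟩
    have hMk := comm_kr k0 M (by
      intro Z
      obtain ⟨T, hT⟩ : ∃ T, T = NI.emb U e (kroneckerMap (· * ·) (1 : Matrix (Fin d) (Fin d) ℂ) Z) := ⟨_, rfl⟩
      have hTh : T * h = h * T := by
        obtain ⟨C, hC⟩ := (hA' h).1 hh
        have z1 := mul_kronecker_mul (1 : Matrix (Fin d) (Fin d) ℂ) C Z (1 : Matrix (Fin q) (Fin q) ℂ)
        have z2 := mul_kronecker_mul C (1 : Matrix (Fin d) (Fin d) ℂ) (1 : Matrix (Fin q) (Fin q) ℂ) Z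
        rw [Matrix.one_mul, Matrix.mul_one] at z1 z2
        rw [hC, hT, NI.emb_mul h1, NI.emb_mul h1]
        congr 1
        exact z1.symm.trans z2
      have e1 := S.comm_E hTh μ
      rw [hT, ← hM, NI.emb_mul h1, NI.emb_mul h1] at e1
      exact (NI.emb_inj h1 e1).symm)
    obtain ⟨C, hC⟩ : ∃ C : Matrix (Fin d) (Fin d) ℂ, C = Matrix.of fun i j => M (i, k0) (j, k0) := ⟨_, rfl⟩
    rw [← hC] at hMk
    have hCC : C * C = C := by
      have e1 : M * M = M := by
        apply NI.emb_inj (e := e) h1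
        rw [← NI.emb_mul h1, hM, S.mul, if_pos rfl]
      have z1 := mul_kronecker_mul C C (1 : Matrix (Fin q) (Fin q) ℂ) (1 : Matrix (Fin q) (Fin q) ℂ)
      rw [Matrix.one_mul] at z1
      rw [hMk] at e1
      have e2 : kroneckerMap (· * ·) (C * C) (1 : Matrix (Fin q) (Fin q) ℂ) =
          kroneckerMap (· * ·) C (1 : Matrix (Fin q) (Fin q) ℂ) := z1.trans e1
      ext i j
      have e3 := congrFun (congrFun e2 (i, k0)) (j, k0)
      rw [kroneckerMap_apply, kroneckerMap_apply, Matrix.one_apply_eq, mul_one, mul_one] at e3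
      exact e3
    have e1 : ((E μ).rank : ℂ) = (E μ).trace := rank_eq_trace (by rw [S.mul, if_pos rfl])
    have e2 : (C.rank : ℂ) = C.trace := rank_eq_trace hCC
    have e3 : (E μ).trace = q * C.trace := by
      rw [← hM]
      unfold NI.emb
      rw [Matrix.trace_mul_comm, ← Matrix.mul_assoc, h1, Matrix.one_mul, Matrix.trace]
      simp only [Matrix.diag_apply, Matrix.submatrix_apply]
      rw [Equiv.sum_comp e (fun x => M x x), hMk, Fintype.sum_prod_type]
      simp only [kroneckerMap_apply]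
      simp only [Matrix.one_apply_eq, mul_one, Finset.sum_const, Finset.card_univ, Fintype.card_fin, nsmul_eq_mul]
      rw [← Finset.mul_sum]
      rfl
    refine ⟨C.rank, ?_⟩
    have e4 : ((E μ).rank : ℂ) = ((q * C.rank : ℕ) : ℂ) := by
      rw [e1, e3, ← e2]
      push_cast
      rfl
    exact_mod_cast e4

/-- If `h` lies in every ideal or in its complement and the multiplicities have no common divisor, `L` has no proper
ideals. -/
theorem Dat.smp_of_or (D : Dat τ L h E Λ) [Nonempty n]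
    (hor : ∀ K : Submodule ℂ (Matrix n n ℂ), IsI L K → h ∈ K ∨ h ∈ pp L K)
    (hd : ∀ d : ℕ, (∀ μ ∈ Λ, d ∣ (E μ).rank) → d = 1) : Smp L := by
  classical
  obtain ⟨J, hJ, hhJ, hmin⟩ := D.exists_min98
  have hsim : ∀ I ≤ J, (∀ X ∈ L, ∀ Y ∈ I, X * Y - Y * X ∈ I) → I = ⊥ ∨ I = J := fun I hle hid =>
    D.min_simple_or hor hJ hhJ hmin hle hid
  obtain ⟨d, q, hd1, hq1, hn, hfin, hdvd⟩ := alg_rank D.spec (Algebra.adjoin ℂ (J : Set (Matrix n n ℂ)))
    (fun a ha => adj_star hJ.st ha) (fun a ha hc => D.adj_cen hJ ha hc) (Algebra.subset_adjoin hhJ)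
  have hq : q = 1 := hd q fun μ _ => hdvd μ
  rw [hq, mul_one] at hn
  have htop : Algebra.adjoin ℂ (J : Set (Matrix n n ℂ)) = ⊤ := by
    apply Subalgebra.toSubmodule_injective
    rw [Algebra.top_toSubmodule]
    apply Submodule.eq_top_of_finrank_eq
    rw [Module.finrank_matrix, Module.finrank_self, mul_one, hn]
    exact hfin
  have hJL : J = L := by
    refine le_antisymm hJ.le fun x hx => ?_
    obtain ⟨j, hj, hj'⟩ := decomp (I := J) x
    have hk : x - j ∈ pp L J := ⟨L.sub_mem hx (hJ.le hj), hj'⟩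
    have h0 : x - j = 0 := by
      refine D.cen_zero98 hk.1 fun y _ => ?_
      have hy : y ∈ Algebra.adjoin ℂ (J : Set (Matrix n n ℂ)) := by
        rw [htop]
        trivial
      exact (adj_comm (fun b hb => hJ.comm D.isI hb hk) hy).symm
    rw [sub_eq_zero.1 h0]
    exact hj
  intro K hK hid
  rw [← hJL] at hK
  rcases hsim K hK hid with h1 | h1
  · exact Or.inl h1
  · exact Or.inr (h1.trans hJL)

/-- If the multiplicities of `h` are indecomposable and have no common divisor, `L` has no proper ideals. -/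
theorem Dat.smp_of_gcd (D : Dat τ L h E Λ) [Nonempty n] {F Fi : Matrix n n ℂ} (f1 : F * Fi = 1) (f2 : Fi * F = 1)
    (hF : Fᵀ = F) (hτ : ∀ x, τ x = Fi * xᵀ * F) {m : ℤ} (hw : ∀ μ : ℝ, E μ ≠ 0 → ∃ p : ℤ, μ = ((p - m : ℤ) : ℝ))
    (hI : NI.Indec (2 * m) (fun p : ℤ => (E ((p - m : ℤ) : ℝ)).rank))
    (hd : ∀ d : ℕ, (∀ μ ∈ Λ, d ∣ (E μ).rank) → d = 1) : Smp L :=
  D.smp_of_or (fun _ hK => D.h_mem_or f1 f2 hF hτ hw hI hK) hd

/-- The same for the eigenvalues `2 p - w` and a symmetric or alternating form. -/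
theorem Dat.smp_of_gcdW (D : Dat τ L h E Λ) [Nonempty n] {F Fi : Matrix n n ℂ} (f1 : F * Fi = 1) (f2 : Fi * F = 1)
    {c : ℂ} (hc : c * c = 1) (hF : Fᵀ = c • F) (hτ : ∀ x, τ x = Fi * xᵀ * F) {w : ℤ}
    (hw : ∀ μ : ℝ, E μ ≠ 0 → ∃ p : ℤ, μ = ((2 * p - w : ℤ) : ℝ))
    (hI : NI.Indec w (fun p : ℤ => (E ((2 * p - w : ℤ) : ℝ)).rank))
    (hd : ∀ d : ℕ, (∀ μ ∈ Λ, d ∣ (E μ).rank) → d = 1) : Smp L :=
  D.smp_of_or (fun _ hK => D.h_mem_orW f1 f2 hc hF hτ hw hI hK) hd

end MH
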