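import Pool.Agent.Helper98.PF.Hodge
import Pool.Agent.Helper14.PF.CoreW
import Pool.Agent.Helper14.GH.HW3

/-!
Project PF (MP_b8862a_ag), block D, the Hodge side in all weights.
-/

set_option linter.unusedSectionVars false

open Matrix

namespace MH

variable {n : Type*} [Fintype n] [DecidableEq n]
variable {w : ℤ} {Q : Matrix n n ℚ} {S : Finset ℤ} {P : ℤ → Matrix n n ℂ}

/-- an endomorphism of the Hodge structure over `ℂ` is a scalar -/
theorem EC_scalar98 {T : Matrix n n ℂ}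
    (hEnd : ∀ A : Matrix n n ℚ, (∀ p, toC A * P p = P p * toC A) → ∃ c : ℚ, A = c • (1 : Matrix n n ℚ))
    (hT : T ∈ EC P) : ∃ c : ℂ, T = c • (1 : Matrix n n ℂ) := by
  unfold EC at hT
  induction hT using Submodule.span_induction with
  | mem x hx =>
    obtain ⟨A, hA, rfl⟩ := hx
    obtain ⟨c, rfl⟩ := hEnd A hA
    refine ⟨(c : ℂ), ?_⟩
    ext i j
    simp only [toC, Matrix.map_apply, Matrix.smul_apply, Matrix.one_apply, smul_eq_mul, map_mul]
    split_ifs <;> simp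
  | zero => exact ⟨0, by rw [zero_smul]⟩
  | add x y _ _ h6 h7 =>
    obtain ⟨c, hc⟩ := h6
    obtain ⟨d, hd⟩ := h7
    exact ⟨c + d, by rw [hc, hd, add_smul]⟩
  | smul a x _ h6 =>
    obtain ⟨c, hc⟩ := h6
    exact ⟨a * c, by rw [hc, smul_smul]⟩

/-- the data of the Lie algebra of the Mumford-Tate group -/
theorem IsHW.datW (H : IsHW w Q S P)
    (hEnd : ∀ A : Matrix n n ℚ, (∀ p, toC A * P p = P p * toC A) → ∃ c : ℚ, A = c • (1 : Matrix n n ℚ))
    {B Bi Qi : Matrix n n ℂ} (h1 : B * Bi = 1) (h2 : Bi * B = 1) (h3 : toC Q * Qi = 1) (h4 : Qi * toC Q = 1)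
    (hM : Mw w Q S P = Bᴴ * B) :
    Dat (tau B Bi (toC Q) Qi) (LB Q S P B Bi) (cj B Bi (hw w S P)) (EW w S P B Bi) (LamW w S) := by
  refine ⟨H.invW h1 h2 h3 h4 hM, H.specW h1 h2 hM, ?_, fun x hx y hy => H.LB_br h1 h2 hx hy,
    fun x hx => H.LB_star h1 h2 hM hx, ?_, H.LB_h h2⟩
  · intro x hx
    have e1 : (cj Bi B x)ᵀ * toC Q = -(toC Q * cj Bi B x) := eq_neg_of_add_eq_zero_left (mem_LB.1 hx).1
    rw [tau_apply, mul_assoc, e1, mul_neg, ← mul_assoc, h4, one_mul, cj_neg, cj_cj h1]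
  · intro T hT
    have h5 : ∀ x ∈ LH Q S P, cj Bi B T * x = x * cj Bi B T := by
      intro x hx
      have h6 := hT (cj B Bi x) (by rw [mem_LB, cj_cj h2]; exact hx)
      have h7 := congrArg (cj Bi B) h6
      rw [← cj_mul h1, ← cj_mul h1, cj_cj h2] at h7
      exact h7
    obtain ⟨c, hc⟩ := EC_scalar98 hEnd (H.EC_of_LH h5)
    refine ⟨c, ?_⟩
    have h8 := congrArg (cj B Bi) hc
    rw [cj_cj h1, cj_smul, cj_one h1] at h8
    exact h8

/-- All matrices that are skew for the polarisation kill all Hodge tensors. -/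
theorem kills_coreW (H : IsHW w Q S P)
    (hEnd : ∀ A : Matrix n n ℚ, (∀ p, toC A * P p = P p * toC A) → ∃ c : ℚ, A = c • (1 : Matrix n n ℚ))
    (hI : NI.Indec w (fun p => (P p).rank)) (hcore : CoreW n w (fun p => (P p).rank))
    (hnum : ∀ d k : ℕ, 2 ≤ d → 2 ≤ k → Fintype.card n = d ^ k → (∀ p, d ^ (k - 1) ∣ (P p).rank) → False)
    {X : Matrix n n ℂ} (hX : Xᵀ * toC Q + toC Q * X = 0) : X ∈ LH Q S P := by
  classical
  rcases isEmpty_or_nonempty n with hn | hn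
  · rw [Subsingleton.elim X 0]
    exact (LH Q S P).zero_mem
  obtain ⟨B, Bi, Qi, h1, h2, h3, h4, hM⟩ := H.exists_basis
  have D := H.datW hEnd h1 h2 h3 h4 hM
  have hPP : ∀ p, P p * P p = P p := fun p => by rw [H.mul, if_pos rfl]
  have r1 : ∀ p : ℤ, (EW w S P B Bi ((2 * p - w : ℤ) : ℝ)).rank = (P p).rank := fun p => by
    rw [H.EW_int, rank_cj h1 h2 (hPP p)]
  have hw' : ∀ μ : ℝ, EW w S P B Bi μ ≠ 0 → ∃ p : ℤ, μ = ((2 * p - w : ℤ) : ℝ) := by
    intro μ hμ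
    by_contra hne
    push Not at hne
    exact hμ (EW_other B Bi fun p _ => (hne p).symm)
  obtain ⟨c, hc, hQc⟩ : ∃ c : ℂ, c * c = 1 ∧ (toC Q)ᵀ = c • toC Q := ⟨(-1 : ℂ) ^ w, sgn_mul w, H.Q_symm⟩
  have b1 : Bᵀ * Biᵀ = 1 := by rw [← Matrix.transpose_mul, h2, Matrix.transpose_one]
  have b2 : Biᵀ * Bᵀ = 1 := by rw [← Matrix.transpose_mul, h1, Matrix.transpose_one]
  have f1 : Biᵀ * toC Q * Bi * (B * Qi * Bᵀ) = 1 := by
    calc Biᵀ * toC Q * Bi * (B * Qi * Bᵀ) = Biᵀ * toC Q * (Bi * B) * Qi * Bᵀ := by simp only [mul_assoc]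
      _ = Biᵀ * (toC Q * Qi) * Bᵀ := by rw [h2, mul_one]; simp only [mul_assoc]
      _ = 1 := by rw [h3, mul_one, b2]
  have f2 : B * Qi * Bᵀ * (Biᵀ * toC Q * Bi) = 1 := by
    calc B * Qi * Bᵀ * (Biᵀ * toC Q * Bi) = B * Qi * (Bᵀ * Biᵀ) * toC Q * Bi := by simp only [mul_assoc]
      _ = B * (Qi * toC Q) * Bi := by rw [b1, mul_one]; simp only [mul_assoc]
      _ = 1 := by rw [h4, mul_one, h1]
  have hF : (Biᵀ * toC Q * Bi)ᵀ = c • (Biᵀ * toC Q * Bi) := by
    rw [Matrix.transpose_mul, Matrix.transpose_mul, Matrix.transpose_transpose, hQc, Matrix.smul_mul, Matrix.mul_smul,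
      mul_assoc]
  have hτ : ∀ x, tau B Bi (toC Q) Qi x = B * Qi * Bᵀ * xᵀ * (Biᵀ * toC Q * Bi) := by
    intro x
    rw [tau_apply]
    unfold cj
    rw [Matrix.transpose_mul, Matrix.transpose_mul]
    simp only [mul_assoc]
  have hI' : NI.Indec w (fun p : ℤ => (EW w S P B Bi ((2 * p - w : ℤ) : ℝ)).rank) := by
    simp only [r1]
    exact hI
  have hcjφ : ∀ (σ : ℂ ≃+* ℂ) (x : Matrix n n ℂ), cj Bi B (phi98 h1 h2 σ x) = (cj Bi B x).map σ := fun σ x => cj_cj h2 _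
  have hcjψ : ∀ (σ : ℂ ≃+* ℂ) (x : Matrix n n ℂ), cj Bi B ((phi98 h1 h2 σ).symm x) = (cj Bi B x).map σ.symm :=
    fun σ x => cj_cj h2 _
  have hsmp : Smp (LB Q S P B Bi) := by
    rcases D.dich_or (fun K hK => D.h_mem_orW f1 f2 hc hF hτ hw' hI' hK) (phi98 h1 h2) (fun σ => σ) (by
        intro σ c x
        show cj B Bi ((cj Bi B (c • x)).map σ) = σ c • cj B Bi ((cj Bi B x).map σ)
        have e1 : (cj Bi B (c • x)).map σ = σ c • (cj Bi B x).map σ := by
          rw [cj_smul]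
          ext i j
          simp
        rw [e1, cj_smul]) (by
        intro σ x hx
        rw [mem_LB, hcjφ]
        exact LH_aut σ hx) (by
        intro σ x hx
        rw [mem_LB, hcjψ]
        exact LH_aut σ.symm hx) (by
        intro T hT
        have hdes := H.descent (T := cj Bi B T) (by
          intro σ
          have h5 := hT σ
          have h6 := congrArg (cj Bi B) h5
          rw [← cj_mul h1, ← cj_mul h1, hcjφ, cj_cj h2] at h6
          exact h6)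
        obtain ⟨c, hc⟩ := EC_scalar98 hEnd hdes
        refine ⟨c, ?_⟩
        have h8 := congrArg (cj B Bi) hc
        rw [cj_cj h1, cj_smul, cj_one h1] at h8
        exact h8) with h5 | ⟨d, k, hd, hk, hcard, hdvd⟩
    · exact h5
    · exfalso
      refine hnum d k hd hk hcard fun p => ?_
      rw [← r1]
      exact hdvd _
  have hx : (cj B Bi X)ᵀ * (Biᵀ * toC Q * Bi) + (Biᵀ * toC Q * Bi) * cj B Bi X = 0 := by
    have e1 : (cj B Bi X)ᵀ * (Biᵀ * toC Q * Bi) = Biᵀ * (Xᵀ * toC Q) * Bi := by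
      unfold cj
      rw [Matrix.transpose_mul, Matrix.transpose_mul]
      calc Biᵀ * (Xᵀ * Bᵀ) * (Biᵀ * toC Q * Bi) = Biᵀ * Xᵀ * (Bᵀ * Biᵀ) * toC Q * Bi := by simp only [mul_assoc]
        _ = _ := by rw [b1, mul_one]; simp only [mul_assoc]
    have e2 : (Biᵀ * toC Q * Bi) * cj B Bi X = Biᵀ * (toC Q * X) * Bi := by
      unfold cj
      calc Biᵀ * toC Q * Bi * (B * X * Bi) = Biᵀ * toC Q * (Bi * B) * X * Bi := by simp only [mul_assoc]
        _ = _ := by rw [h2, mul_one]; simp only [mul_assoc]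
    rw [e1, e2, ← Matrix.add_mul, ← Matrix.mul_add, hX, mul_zero, zero_mul]
  have hmem : cj B Bi X ∈ LB Q S P B Bi := by
    have hF' : (Biᵀ * toC Q * Bi)ᵀ = Biᵀ * toC Q * Bi ∨ (Biᵀ * toC Q * Bi)ᵀ = -(Biᵀ * toC Q * Bi) := by
      rcases mul_self_eq_one_iff.1 hc with h5 | h5
      · left
        rw [hF, h5, one_smul]
      · right
        rw [hF, h5, neg_one_smul]
    refine hcore (Biᵀ * toC Q * Bi) (B * Qi * Bᵀ) hF' f1 f2 (LB Q S P B Bi) D.br (fun W hW => D.stable W hW) ?_ hsmp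
      (cj B Bi (hw w S P)) (EW w S P B Bi) (LamW w S) D.mem ⟨D.spec.mul, D.spec.sum, D.spec.eq⟩
      hw' r1 _ hx
    intro Y hY
    have e1 := D.sk Y hY
    rw [hτ] at e1
    have e2 : Yᵀ * (Biᵀ * toC Q * Bi) = -((Biᵀ * toC Q * Bi) * Y) := by
      calc Yᵀ * (Biᵀ * toC Q * Bi) = (Biᵀ * toC Q * Bi) * (B * Qi * Bᵀ * Yᵀ * (Biᵀ * toC Q * Bi)) := by
            simp only [← mul_assoc]
            simp only [← mul_assoc] at f1
            rw [f1, one_mul]
        _ = _ := by rw [e1, mul_neg]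
    rw [e2, neg_add_cancel]
  rw [mem_LB, cj_cj h2] at hmem
  exact hmem

end MH
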