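import Pool.Agent.Helper98.PF.Ten

/-!
Project PF (MP_b8862a_ag), block D: semilinear automorphisms that preserve `L` and move `h`: `L` has no proper ideals,
or the dimension is `d ^ k` with `k ≥ 2` and `d ^ (k - 1)` divides all multiplicities.
-/

open Matrix

namespace MH

variable {n : Type*} [Fintype n] [DecidableEq n]
variable {h : Matrix n n ℂ} {E : ℝ → Matrix n n ℂ} {Λ : Finset ℝ}
variable {τ : Matrix n n ℂ →ₗ[ℂ] Matrix n n ℂ} {L : Submodule ℂ (Matrix n n ℂ)}

/-- a self-adjoint algebra with trivial commutant is everything -/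
lemma full_of_comm98 [Nonempty n] (A : Subalgebra ℂ (Matrix n n ℂ)) (hst : ∀ a ∈ A, aᴴ ∈ A)
    (hc : ∀ T : Matrix n n ℂ, (∀ a ∈ A, T * a = a * T) → ∃ c : ℂ, T = c • (1 : Matrix n n ℂ)) : A = ⊤ := by
  classical
  obtain ⟨d, q, e, U, hd, hq, h1, h2, hA⟩ := OW.coord A hst (fun a _ ha => hc a ha)
  obtain ⟨i0⟩ : Nonempty (Fin d) := ⟨⟨0, by omega⟩⟩
  obtain ⟨k0⟩ : Nonempty (Fin q) := ⟨⟨0, by omega⟩⟩
  have hA' : ∀ T : Matrix n n ℂ, T ∈ A ↔ ∃ C : Matrix (Fin d) (Fin d) ℂ,
      T = NI.emb U e (kroneckerMap (· * ·) C (1 : Matrix (Fin q) (Fin q) ℂ)) := by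
    intro T
    rw [hA]
    constructor
    · rintro ⟨C, hC⟩
      refine ⟨C, ?_⟩
      rw [← NI.emb_coord (e := e) h2 T, hC, submatrix_submatrix, Equiv.self_comp_symm, submatrix_id_id]
    · rintro ⟨C, rfl⟩
      exact ⟨C, NI.coord_emb h1 _⟩
  obtain ⟨c, hcT⟩ := hc (NI.emb U e (kroneckerMap (· * ·) (1 : Matrix (Fin d) (Fin d) ℂ) (Matrix.single k0 k0 (1 : ℂ)))) (by
    intro a ha
    obtain ⟨C, rfl⟩ := (hA' a).1 ha
    have z1 := mul_kronecker_mul (1 : Matrix (Fin d) (Fin d) ℂ) C (Matrix.single k0 k0 (1 : ℂ)) (1 : Matrix (Fin q) (Fin q) ℂ)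
    have z2 := mul_kronecker_mul C (1 : Matrix (Fin d) (Fin d) ℂ) (1 : Matrix (Fin q) (Fin q) ℂ) (Matrix.single k0 k0 (1 : ℂ))
    rw [Matrix.one_mul, Matrix.mul_one] at z1 z2
    rw [NI.emb_mul h1, NI.emb_mul h1]
    congr 1
    exact z1.symm.trans z2)
  have e1 : kroneckerMap (· * ·) (1 : Matrix (Fin d) (Fin d) ℂ) (Matrix.single k0 k0 (1 : ℂ)) =
      c • (1 : Matrix (Fin d × Fin q) (Fin d × Fin q) ℂ) := by
    apply NI.emb_inj (e := e) h1
    rw [hcT, NI.emb_smul, NI.emb_one h2]
  have hone : ∀ k : Fin q, k = k0 := by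
    intro k
    by_contra hk
    have e2 := congrFun (congrFun e1 (i0, k)) (i0, k)
    have e3 := congrFun (congrFun e1 (i0, k0)) (i0, k0)
    rw [kroneckerMap_apply, Matrix.smul_apply, Matrix.one_apply_eq, Matrix.one_apply_eq, Matrix.single_apply,
      if_neg (fun h => hk h.1.symm), smul_eq_mul, mul_one, mul_zero] at e2
    rw [kroneckerMap_apply, Matrix.smul_apply, Matrix.one_apply_eq, Matrix.one_apply_eq, Matrix.single_apply_same,
      smul_eq_mul, mul_one, mul_one] at e3
    rw [← e2] at e3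
    exact one_ne_zero e3
  rw [eq_top_iff]
  intro X _
  rw [hA']
  refine ⟨Matrix.of fun i j => (Uᴴ * X * U).submatrix e.symm e.symm (i, k0) (j, k0), ?_⟩
  conv_lhs => rw [← NI.emb_coord (e := e) h2 X]
  congr 1
  ext ⟨i, k⟩ ⟨j, l⟩
  rw [kroneckerMap_apply, Matrix.of_apply, hone k, hone l, Matrix.one_apply_eq, mul_one]

/-- the image of a subspace under a semilinear automorphism -/
def img98 (φ : Matrix n n ℂ ≃+* Matrix n n ℂ) (σ : ℂ ≃+* ℂ) (hφ : ∀ (c : ℂ) x, φ (c • x) = σ c • φ x)
    (J : Submodule ℂ (Matrix n n ℂ)) : Submodule ℂ (Matrix n n ℂ) where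
  carrier := {x | φ.symm x ∈ J}
  add_mem' := by
    intro a b ha hb
    show φ.symm (a + b) ∈ J
    rw [map_add]
    exact J.add_mem ha hb
  zero_mem' := by
    show φ.symm 0 ∈ J
    rw [map_zero]
    exact J.zero_mem
  smul_mem' := by
    intro c x hx
    show φ.symm (c • x) ∈ J
    have e1 : φ.symm (c • x) = σ.symm c • φ.symm x := by
      apply φ.injective
      rw [hφ, φ.apply_symm_apply, φ.apply_symm_apply, σ.apply_symm_apply]
    rw [e1]
    exact J.smul_mem _ hx

/-- the dimension of the algebra generated by the image -/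
lemma finrank_img98 (φ : Matrix n n ℂ ≃+* Matrix n n ℂ) (σ : ℂ ≃+* ℂ) (hφ : ∀ (c : ℂ) x, φ (c • x) = σ c • φ x)
    (J : Submodule ℂ (Matrix n n ℂ)) :
    Module.finrank ℂ (Algebra.adjoin ℂ (img98 φ σ hφ J : Set (Matrix n n ℂ))) =
      Module.finrank ℂ (Algebra.adjoin ℂ (J : Set (Matrix n n ℂ))) := by
  have hψ : ∀ (c : ℂ) x, φ.symm (c • x) = σ.symm c • φ.symm x := by
    intro c x
    apply φ.injective
    rw [hφ, φ.apply_symm_apply, φ.apply_symm_apply, σ.apply_symm_apply]
  have h1 : ∀ x ∈ Algebra.adjoin ℂ (J : Set (Matrix n n ℂ)), φ x ∈ Algebra.adjoin ℂ (img98 φ σ hφ J : Set (Matrix n n ℂ)) := by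
    intro x hx
    induction hx using Algebra.adjoin_induction with
    | mem y hy =>
      apply Algebra.subset_adjoin
      show φ.symm (φ y) ∈ J
      rw [φ.symm_apply_apply]
      exact hy
    | algebraMap c =>
      rw [Algebra.algebraMap_eq_smul_one, hφ, map_one]
      exact Subalgebra.smul_mem _ (one_mem _) _
    | add y z _ _ hy hz => rw [map_add]; exact add_mem hy hz
    | mul y z _ _ hy hz => rw [map_mul]; exact mul_mem hy hz
  have h2 : ∀ x ∈ Algebra.adjoin ℂ (img98 φ σ hφ J : Set (Matrix n n ℂ)), φ.symm x ∈ Algebra.adjoin ℂ (J : Set (Matrix n n ℂ)) := by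
    intro x hx
    induction hx using Algebra.adjoin_induction with
    | mem y hy => exact Algebra.subset_adjoin hy
    | algebraMap c =>
      rw [Algebra.algebraMap_eq_smul_one, hψ, map_one]
      exact Subalgebra.smul_mem _ (one_mem _) _
    | add y z _ _ hy hz => rw [map_add]; exact add_mem hy hz
    | mul y z _ _ hy hz => rw [map_mul]; exact mul_mem hy hz
  let j : Algebra.adjoin ℂ (J : Set (Matrix n n ℂ)) ≃+ Algebra.adjoin ℂ (img98 φ σ hφ J : Set (Matrix n n ℂ)) :=
    { toFun := fun x => ⟨φ x.1, h1 _ x.2⟩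
      invFun := fun x => ⟨φ.symm x.1, h2 _ x.2⟩
      left_inv := fun x => Subtype.ext (φ.symm_apply_apply _)
      right_inv := fun x => Subtype.ext (φ.apply_symm_apply _)
      map_add' := fun x y => Subtype.ext (map_add φ _ _) }
  have h3 := rank_eq_of_equiv_equiv (σ : ℂ → ℂ) j σ.bijective (fun c x => Subtype.ext (hφ c x.1))
  unfold Module.finrank
  rw [h3]

/-- The dichotomy with a family of semilinear automorphisms. -/
theorem Dat.dich_or (D : Dat τ L h E Λ) [Nonempty n]
    (hor : ∀ K : Submodule ℂ (Matrix n n ℂ), IsI L K → h ∈ K ∨ h ∈ pp L K) {ι : Type*}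
    (φ : ι → Matrix n n ℂ ≃+* Matrix n n ℂ) (σ : ι → ℂ ≃+* ℂ) (hφ : ∀ i (c : ℂ) x, φ i (c • x) = σ i c • φ i x)
    (hL : ∀ i, ∀ x ∈ L, φ i x ∈ L) (hL' : ∀ i, ∀ x ∈ L, (φ i).symm x ∈ L)
    (hT : ∀ T : Matrix n n ℂ, (∀ i, T * φ i h = φ i h * T) → ∃ c : ℂ, T = c • (1 : Matrix n n ℂ)) :
    Smp L ∨ ∃ d k : ℕ, 2 ≤ d ∧ 2 ≤ k ∧ Fintype.card n = d ^ k ∧ ∀ μ, d ^ (k - 1) ∣ (E μ).rank := by
  classical
  obtain ⟨J, hJ, hhJ, hmin⟩ := D.exists_min98
  have hsim : ∀ I ≤ J, (∀ X ∈ L, ∀ Y ∈ I, X * Y - Y * X ∈ I) → I = ⊥ ∨ I = J := fun I hle hid =>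
    D.min_simple_or hor hJ hhJ hmin hle hid
  obtain ⟨Kf, hKf⟩ : ∃ Kf : ι → Submodule ℂ (Matrix n n ℂ), ∀ i, Kf i = img98 (φ i) (σ i) (hφ i) J := ⟨_, fun _ => rfl⟩
  have mK : ∀ i x, x ∈ Kf i ↔ (φ i).symm x ∈ J := by
    intro i x
    rw [hKf]
    rfl
  have hKI : ∀ i, IsI L (Kf i) := by
    intro i
    refine D.isI_of ?_ ?_
    · intro x hx
      have h1 := hL i _ (hJ.le ((mK i x).1 hx))
      rwa [RingEquiv.apply_symm_apply] at h1
    · intro X hX Y hY
      rw [mK, map_sub, map_mul, map_mul]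
      exact hJ.br _ (hL' i X hX) _ ((mK i Y).1 hY)
  have hhK : ∀ i, φ i h ∈ Kf i := by
    intro i
    rw [mK, RingEquiv.symm_apply_apply]
    exact hhJ
  have hsK : ∀ i, ∀ I ≤ Kf i, (∀ X ∈ L, ∀ Y ∈ I, X * Y - Y * X ∈ I) → I = ⊥ ∨ I = Kf i := by
    intro i I hle hid
    have hψ : ∀ (c : ℂ) x, (φ i).symm (c • x) = (σ i).symm c • (φ i).symm x := by
      intro c x
      apply (φ i).injective
      rw [hφ, RingEquiv.apply_symm_apply, RingEquiv.apply_symm_apply, RingEquiv.apply_symm_apply]
    have mI : ∀ x, x ∈ img98 (φ i).symm (σ i).symm hψ I ↔ φ i x ∈ I := fun x => Iff.rfl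
    rcases hsim (img98 (φ i).symm (σ i).symm hψ I) (by
      intro x hx
      have h1 := (mK i _).1 (hle ((mI x).1 hx))
      rwa [RingEquiv.symm_apply_apply] at h1) (by
      intro X hX Y hY
      rw [mI, map_sub, map_mul, map_mul]
      exact hid _ (hL i X hX) _ ((mI Y).1 hY)) with h1 | h1
    · left
      rw [eq_bot_iff]
      intro x hx
      have h2 : (φ i).symm x ∈ img98 (φ i).symm (σ i).symm hψ I := by
        rw [mI, RingEquiv.apply_symm_apply]
        exact hx
      rw [h1, Submodule.mem_bot] at h2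
      rw [Submodule.mem_bot]
      exact (map_eq_zero_iff _ (φ i).symm.injective).1 h2
    · right
      refine le_antisymm hle fun x hx => ?_
      have h2 := (mK i x).1 hx
      rw [← h1, mI, RingEquiv.apply_symm_apply] at h2
      exact h2
  have hKK : ∀ i j, Kf i = Kf j ∨ ∀ a ∈ Kf i, ∀ b ∈ Kf j, a * b = b * a := by
    intro i j
    have hinf := (hKI i).inf (hKI j)
    rcases hsK i _ inf_le_left hinf.br with h1 | h1
    · right
      intro a ha b hb
      have h2 : a * b - b * a ∈ Kf i ⊓ Kf j := ⟨(hKI i).br' ((hKI j).le hb) ha, (hKI j).br a ((hKI i).le ha) b hb⟩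
      rw [h1, Submodule.mem_bot] at h2
      exact sub_eq_zero.1 h2
    · have h2 : Kf i ≤ Kf j := by
        rw [← h1]
        exact inf_le_right
      rcases hsK j _ h2 (hKI i).br with h3 | h3
      · right
        intro a ha b _
        rw [h3, Submodule.mem_bot] at ha
        rw [ha, zero_mul, mul_zero]
      · left
        exact h3
  -- the dimension of the algebra generated by finitely many
  obtain ⟨d0, q0, hd0, hq0, hn0, hfin0, hdvd0⟩ := alg_rank D.spec (Algebra.adjoin ℂ (J : Set (Matrix n n ℂ)))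
    (fun a ha => adj_star hJ.st ha) (fun a ha hc => D.adj_cen hJ ha hc) (Algebra.subset_adjoin hhJ)
  have hfinK : ∀ i, Module.finrank ℂ (Algebra.adjoin ℂ (Kf i : Set (Matrix n n ℂ))) = d0 * d0 := by
    intro i
    rw [hKf, finrank_img98, hfin0]
  have hind : ∀ s : Finset ι, ∃ k : ℕ, Module.finrank ℂ (Algebra.adjoin ℂ ((s.sup Kf : Submodule ℂ (Matrix n n ℂ)) : Set (Matrix n n ℂ))) =
      (d0 * d0) ^ k ∧ (k = 0 → s = ∅) ∧ (k ≤ 1 → ∀ i ∈ s, ∀ j ∈ s, Kf i = Kf j) := by
    intro s
    induction s using Finset.induction_on with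
    | empty =>
      refine ⟨0, ?_, fun _ => rfl, fun _ i hi => absurd hi (Finset.notMem_empty i)⟩
      rw [Finset.sup_empty, pow_zero]
      have e1 : Algebra.adjoin ℂ (((⊥ : Submodule ℂ (Matrix n n ℂ))) : Set (Matrix n n ℂ)) = ⊥ := by
        rw [eq_bot_iff, Algebra.adjoin_le_iff]
        intro x hx
        rw [SetLike.mem_coe, Submodule.mem_bot] at hx
        rw [hx]
        exact zero_mem _
      rw [e1, Subalgebra.finrank_bot]
    | insert i s hi ih =>
      obtain ⟨k, hk1, hk2, hk3⟩ := ih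
      by_cases hex : ∃ j ∈ s, Kf i = Kf j
      · obtain ⟨j, hj, hij⟩ := hex
        refine ⟨k, ?_, ?_, ?_⟩
        · rw [Finset.sup_insert, hij, sup_eq_right.2 (Finset.le_sup hj), hk1]
        · intro h0
          rw [hk2 h0] at hj
          exact absurd hj (Finset.notMem_empty j)
        · intro h1 a ha b hb
          rw [Finset.mem_insert] at ha hb
          rcases ha with rfl | ha
          · rcases hb with rfl | hb
            · rfl
            · rw [hij]; exact hk3 h1 _ hj _ hb
          · rcases hb with rfl | hb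
            · rw [hij]; exact hk3 h1 _ ha _ hj
            · exact hk3 h1 _ ha _ hb
      · push Not at hex
        refine ⟨k + 1, ?_, fun h0 => absurd h0 (by omega), ?_⟩
        · have e1 : Algebra.adjoin ℂ (((insert i s).sup Kf : Submodule ℂ (Matrix n n ℂ)) : Set (Matrix n n ℂ)) =
              Algebra.adjoin ℂ (Kf i : Set (Matrix n n ℂ)) ⊔
                Algebra.adjoin ℂ ((s.sup Kf : Submodule ℂ (Matrix n n ℂ)) : Set (Matrix n n ℂ)) := by
            rw [Finset.sup_insert]
            apply le_antisymm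
            · rw [Algebra.adjoin_le_iff]
              intro x hx
              obtain ⟨a, ha, b, hb, rfl⟩ := Submodule.mem_sup.1 hx
              refine add_mem ?_ ?_
              · exact (le_sup_left : Algebra.adjoin ℂ (Kf i : Set (Matrix n n ℂ)) ≤ _) (Algebra.subset_adjoin ha)
              · exact (le_sup_right : Algebra.adjoin ℂ ((s.sup Kf : Submodule ℂ (Matrix n n ℂ)) : Set (Matrix n n ℂ)) ≤ _)
                  (Algebra.subset_adjoin hb)
            · exact sup_le (Algebra.adjoin_mono (SetLike.coe_subset_coe.2 le_sup_left))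
                (Algebra.adjoin_mono (SetLike.coe_subset_coe.2 le_sup_right))
          have hcm : ∀ a ∈ Kf i, ∀ b ∈ s.sup Kf, a * b = b * a := by
            intro a ha
            have e2 : s.sup Kf ≤ { carrier := {b | a * b = b * a}
                                   add_mem' := by
                                    intro x y hx hy
                                    show a * (x + y) = (x + y) * a
                                    rw [mul_add, add_mul]
                                    exact congrArg₂ _ hx hy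
                                   zero_mem' := by
                                    show a * 0 = 0 * a
                                    rw [mul_zero, zero_mul]
                                   smul_mem' := by
                                    intro c x hx
                                    show a * (c • x) = (c • x) * a
                                    rw [mul_smul_comm, smul_mul_assoc]
                                    exact congrArg _ hx : Submodule ℂ (Matrix n n ℂ) } := by
              rw [Finset.sup_le_iff]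
              intro j hj b hb
              rcases hKK i j with h1 | h1
              · exact absurd h1 (hex j hj)
              · exact h1 a ha b hb
            intro b hb
            exact e2 hb
          rw [e1, finrank_sup98 _ _ (fun a ha => adj_star (hKI i).st ha) (fun a ha hc => D.adj_cen (hKI i) ha hc) (by
            intro a ha b hb
            refine adj_comm (fun x hx => ?_) ha
            exact (adj_comm (fun y hy => (hcm x hx y hy).symm) hb).symm), hfinK, hk1, pow_succ, mul_comm]
        · intro h1 a ha b hb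
          have h2 := hk2 (by omega)
          rw [h2] at ha hb
          simp only [Finset.mem_insert, Finset.notMem_empty, or_false] at ha hb
          rw [ha, hb]
  -- a finite set with everything
  obtain ⟨s, hs⟩ : ∃ s : Finset ι, ∀ i, Kf i ≤ s.sup Kf := by
    have hbd : ∀ s : Finset ι, Module.finrank ℂ (s.sup Kf : Submodule ℂ (Matrix n n ℂ)) ≤ Module.finrank ℂ (Matrix n n ℂ) :=
      fun s => Submodule.finrank_le _
    have hex : ∃ r : ℕ, ∃ s : Finset ι, Module.finrank ℂ (Matrix n n ℂ) = Module.finrank ℂ (s.sup Kf : Submodule ℂ (Matrix n n ℂ)) + r :=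
      ⟨_, ∅, (Nat.add_sub_cancel' (hbd ∅)).symm⟩
    obtain ⟨s, hs⟩ := Nat.find_spec hex
    refine ⟨s, fun i => ?_⟩
    have h1 : s.sup Kf ≤ (insert i s).sup Kf := by
      rw [Finset.sup_insert]
      exact le_sup_right
    have h2 : s.sup Kf = (insert i s).sup Kf := by
      apply Submodule.eq_of_le_of_finrank_le h1
      have h3 := Nat.find_min' hex ⟨insert i s, (Nat.add_sub_cancel' (hbd (insert i s))).symm⟩
      have h4 := hbd (insert i s)
      omega
    rw [h2, Finset.sup_insert]
    exact le_sup_left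
  have hsI : IsI L (s.sup Kf) := by
    refine D.isI_of (Finset.sup_le fun i _ => (hKI i).le) ?_
    intro X hX
    have e2 : s.sup Kf ≤ Submodule.comap (LinearMap.mulLeft ℂ X - LinearMap.mulRight ℂ X) (s.sup Kf) := by
      rw [Finset.sup_le_iff]
      intro j hj b hb
      rw [Submodule.mem_comap, LinearMap.sub_apply, LinearMap.mulLeft_apply, LinearMap.mulRight_apply]
      exact (Finset.le_sup hj : Kf j ≤ s.sup Kf) ((hKI j).br X hX b hb)
    intro Y hY
    have := e2 hY
    rwa [Submodule.mem_comap, LinearMap.sub_apply, LinearMap.mulLeft_apply, LinearMap.mulRight_apply] at this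
  have htop : Algebra.adjoin ℂ ((s.sup Kf : Submodule ℂ (Matrix n n ℂ)) : Set (Matrix n n ℂ)) = ⊤ := by
    refine full_of_comm98 _ (fun a ha => adj_star hsI.st ha) fun T hTT => hT T fun i => hTT _ ?_
    exact Algebra.subset_adjoin (hs i (hhK i))
  have hsL : s.sup Kf = L := by
    refine le_antisymm hsI.le fun x hx => ?_
    obtain ⟨j, hj, hj'⟩ := decomp (I := s.sup Kf) x
    have hk : x - j ∈ pp L (s.sup Kf) := ⟨L.sub_mem hx (hsI.le hj), hj'⟩
    have h0 : x - j = 0 := by
      refine D.cen_zero98 hk.1 fun y _ => ?_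
      have hy : y ∈ Algebra.adjoin ℂ ((s.sup Kf : Submodule ℂ (Matrix n n ℂ)) : Set (Matrix n n ℂ)) := by
        rw [htop]
        trivial
      exact (adj_comm (fun b hb => hsI.comm D.isI hb hk) hy).symm
    rw [sub_eq_zero.1 h0]
    exact hj
  obtain ⟨k, hk1, hk2, hk3⟩ := hind s
  by_cases hk : k ≤ 1
  · left
    rcases s.eq_empty_or_nonempty with h0 | ⟨i, hi⟩
    · intro K hK _
      left
      rw [← hsL, h0, Finset.sup_empty] at hK
      exact le_bot_iff.1 hK
    · have h1 : s.sup Kf = Kf i := by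
        apply le_antisymm
        · exact Finset.sup_le fun j hj => (hk3 hk j hj i hi).le
        · exact Finset.le_sup hi
      intro K hK hid
      rw [← hsL, h1] at hK
      rcases hsK i K hK hid with h2 | h2
      · exact Or.inl h2
      · exact Or.inr (by rw [h2, ← h1, hsL])
  · have hcard : Fintype.card n = d0 ^ k := by
      have e1 : Module.finrank ℂ (Algebra.adjoin ℂ ((s.sup Kf : Submodule ℂ (Matrix n n ℂ)) : Set (Matrix n n ℂ))) =
          Fintype.card n * Fintype.card n := by
        rw [htop]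
        have e2 : Module.finrank ℂ (⊤ : Subalgebra ℂ (Matrix n n ℂ)) = Module.finrank ℂ (Matrix n n ℂ) := by
          exact subalgebra_top_finrank_eq_submodule_top_finrank.trans (finrank_top ℂ _)
        rw [e2, Module.finrank_matrix, Module.finrank_self, mul_one]
      rw [hk1, mul_pow] at e1
      nlinarith [Nat.mul_self_inj.1 e1]
    by_cases hd2 : 2 ≤ d0
    · right
      refine ⟨d0, k, hd2, by omega, hcard, ?_⟩
      have hq : q0 = d0 ^ (k - 1) := by
        have e1 : d0 * q0 = d0 * d0 ^ (k - 1) := by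
          rw [← hn0, hcard, ← pow_succ']
          congr 1
          omega
        exact Nat.eq_of_mul_eq_mul_left hd0 e1
      rw [← hq]
      exact hdvd0
    · left
      have hd1 : d0 = 1 := by omega
      rw [hd1, one_pow] at hcard
      have hLb : L = ⊥ := by
        rw [eq_bot_iff]
        intro x hx
        rw [Submodule.mem_bot]
        have hsub : Subsingleton n := Fintype.card_le_one_iff_subsingleton.1 hcard.le
        refine D.cen_zero98 hx fun y _ => ?_
        obtain ⟨i⟩ := ‹Nonempty n›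
        ext a b
        rw [Subsingleton.elim a i, Subsingleton.elim b i, Matrix.mul_apply, Matrix.mul_apply]
        refine Finset.sum_congr rfl fun c _ => ?_
        rw [Subsingleton.elim c i, mul_comm]
      intro K hK _
      left
      rw [hLb] at hK
      exact le_bot_iff.1 hK

/-- The dichotomy with a family of semilinear automorphisms. -/
theorem Dat.dich_aut (D : Dat τ L h E Λ) [Nonempty n] {F Fi : Matrix n n ℂ} (f1 : F * Fi = 1) (f2 : Fi * F = 1)
    (hF : Fᵀ = F) (hτ : ∀ x, τ x = Fi * xᵀ * F) {m : ℤ} (hw : ∀ μ : ℝ, E μ ≠ 0 → ∃ p : ℤ, μ = ((p - m : ℤ) : ℝ))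
    (hI : NI.Indec (2 * m) (fun p : ℤ => (E ((p - m : ℤ) : ℝ)).rank)) {ι : Type*}
    (φ : ι → Matrix n n ℂ ≃+* Matrix n n ℂ) (σ : ι → ℂ ≃+* ℂ) (hφ : ∀ i (c : ℂ) x, φ i (c • x) = σ i c • φ i x)
    (hL : ∀ i, ∀ x ∈ L, φ i x ∈ L) (hL' : ∀ i, ∀ x ∈ L, (φ i).symm x ∈ L)
    (hT : ∀ T : Matrix n n ℂ, (∀ i, T * φ i h = φ i h * T) → ∃ c : ℂ, T = c • (1 : Matrix n n ℂ)) :
    Smp L ∨ ∃ d k : ℕ, 2 ≤ d ∧ 2 ≤ k ∧ Fintype.card n = d ^ k ∧ ∀ μ, d ^ (k - 1) ∣ (E μ).rank :=
  D.dich_or (fun _ hK => D.h_mem_or f1 f2 hF hτ hw hI hK) φ σ hφ hL hL' hT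

end MH
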