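import Pool.Agent.Helper98.PF.Aut
import Pool.Agent.Helper21.MH.Hodge2

/-!
Project PF (MP_b8862a_ag), block D, the Hodge side: the Mumford-Tate group contains the special orthogonal group of
the polarisation if the core statement holds for the Hodge numbers.
-/

set_option linter.unusedSectionVars false

open Matrix

namespace MH

variable {n : Type*} [Fintype n] [DecidableEq n]
variable {m : ℤ} {Q : Matrix n n ℚ} {S : Finset ℤ} {P : ℤ → Matrix n n ℂ}

/-- conjugation of the entries in the basis `B` -/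
noncomputable def phi98 {B Bi : Matrix n n ℂ} (h1 : B * Bi = 1) (h2 : Bi * B = 1) (σ : ℂ ≃+* ℂ) :
    Matrix n n ℂ ≃+* Matrix n n ℂ where
  toFun x := cj B Bi ((cj Bi B x).map σ)
  invFun x := cj B Bi ((cj Bi B x).map σ.symm)
  left_inv x := by
    show cj B Bi ((cj Bi B (cj B Bi ((cj Bi B x).map σ))).map σ.symm) = x
    rw [cj_cj h2]
    have e1 : ((cj Bi B x).map σ).map σ.symm = cj Bi B x := by
      ext i j
      simp
    rw [e1, cj_cj h1]
  right_inv x := by
    show cj B Bi ((cj Bi B (cj B Bi ((cj Bi B x).map σ.symm))).map σ) = x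
    rw [cj_cj h2]
    have e1 : ((cj Bi B x).map σ.symm).map σ = cj Bi B x := by
      ext i j
      simp
    rw [e1, cj_cj h1]
  map_mul' x y := by
    show cj B Bi ((cj Bi B (x * y)).map σ) = cj B Bi ((cj Bi B x).map σ) * cj B Bi ((cj Bi B y).map σ)
    rw [cj_mul h2, ← cj_mul h1]
    congr 1
    have := Matrix.map_mul (L := cj Bi B x) (M := cj Bi B y) (f := (σ : ℂ →+* ℂ))
    exact this
  map_add' x y := by
    show cj B Bi ((cj Bi B (x + y)).map σ) = cj B Bi ((cj Bi B x).map σ) + cj B Bi ((cj Bi B y).map σ)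
    rw [← cj_add, cj_add]
    congr 1
    ext i j
    simp

/-- All matrices that are skew for the polarisation kill all Hodge tensors. -/
theorem so_kills_core (H : IsHS m Q S P)
    (hEnd : ∀ A : Matrix n n ℚ, (∀ p, toC A * P p = P p * toC A) → ∃ c : ℚ, A = c • (1 : Matrix n n ℚ))
    (hI : NI.Indec (2 * m) (fun p => (P p).rank)) (hcore : Core n m (fun p => (P p).rank))
    (hnum : ∀ d k : ℕ, 2 ≤ d → 2 ≤ k → Fintype.card n = d ^ k → (∀ p, d ^ (k - 1) ∣ (P p).rank) → False)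
    {X : Matrix n n ℂ} (hX : Xᵀ * toC Q + toC Q * X = 0) : X ∈ LH Q S P := by
  classical
  rcases isEmpty_or_nonempty n with hn | hn
  · rw [Subsingleton.elim X 0]
    exact (LH Q S P).zero_mem
  obtain ⟨B, Bi, Qi, h1, h2, h3, h4, hM⟩ := H.exists_basis
  have D := dat_of H hEnd h1 h2 h3 h4 hM
  have hPP : ∀ p, P p * P p = P p := fun p => by rw [H.mul, if_pos rfl]
  have r1 : ∀ p : ℤ, (EE m S P B Bi ((p - m : ℤ) : ℝ)).rank = (P p).rank := fun p => by
    rw [EE_int H, rank_cj h1 h2 (hPP p)]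
  have hw : ∀ μ : ℝ, EE m S P B Bi μ ≠ 0 → ∃ p : ℤ, μ = ((p - m : ℤ) : ℝ) := by
    intro μ hμ
    by_contra hne
    push Not at hne
    exact hμ (EE_other B Bi fun p _ => (hne p).symm)
  have b1 : Bᵀ * Biᵀ = 1 := by rw [← Matrix.transpose_mul, h2, Matrix.transpose_one]
  have b2 : Biᵀ * Bᵀ = 1 := by rw [← Matrix.transpose_mul, h1, Matrix.transpose_one]
  have f1 : Biᵀ * toC Q * Bi * (B * Qi * Bᵀ) = 1 := by
    calc Biᵀ * toC Q * Bi * (B * Qi * Bᵀ) = Biᵀ * toC Q * (Bi * B) * Qi * Bᵀ := by simp only [mul_assoc]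
      _ = Biᵀ * (toC Q * Qi) * Bᵀ := by rw [h2, mul_one]; simp only [mul_assoc]
      _ = 1 := by rw [h3, mul_one, b2]
  have f2 : B * Qi * Bᵀ * (Biᵀ * toC Q * Bi) = 1 := by
    calc B * Qi * Bᵀ * (Biᵀ * toC Q * Bi) = B * Qi * (Bᵀ * Biᵀ) * toC Q * Bi := by simp only [mul_assoc]
      _ = B * (Qi * toC Q) * Bi := by rw [b1, mul_one]; simp only [mul_assoc]
      _ = 1 := by rw [h4, mul_one, h1]
  have hF : (Biᵀ * toC Q * Bi)ᵀ = Biᵀ * toC Q * Bi := by
    rw [Matrix.transpose_mul, Matrix.transpose_mul, Matrix.transpose_transpose, H.Q_symm, mul_assoc]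
  have hτ : ∀ x, tau B Bi (toC Q) Qi x = B * Qi * Bᵀ * xᵀ * (Biᵀ * toC Q * Bi) := by
    intro x
    rw [tau_apply]
    unfold cj
    rw [Matrix.transpose_mul, Matrix.transpose_mul]
    simp only [mul_assoc]
  have hI' : NI.Indec (2 * m) (fun p : ℤ => (EE m S P B Bi ((p - m : ℤ) : ℝ)).rank) := by
    simp only [r1]
    exact hI
  have hcjφ : ∀ (σ : ℂ ≃+* ℂ) (x : Matrix n n ℂ), cj Bi B (phi98 h1 h2 σ x) = (cj Bi B x).map σ := fun σ x => cj_cj h2 _
  have hcjψ : ∀ (σ : ℂ ≃+* ℂ) (x : Matrix n n ℂ), cj Bi B ((phi98 h1 h2 σ).symm x) = (cj Bi B x).map σ.symm :=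
    fun σ x => cj_cj h2 _
  have hsmp : Smp (LB Q S P B Bi) := by
    rcases D.dich_aut f1 f2 hF hτ hw hI' (phi98 h1 h2) (fun σ => σ) (by
        intro σ c x
        show cj B Bi ((cj Bi B (c • x)).map σ) = σ c • cj B Bi ((cj Bi B x).map σ)
        have e1 : (cj Bi B (c • x)).map σ = σ c • (cj Bi B x).map σ := by
          rw [cj_smul]
          ext i j
          simp
        rw [e1, cj_smul]) (by
        intro σ x hx
        rw [mem_LB, hcjφ]
        exact LH_aut σ hx) (by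
        intro σ x hx
        rw [mem_LB, hcjψ]
        exact LH_aut σ.symm hx) (by
        intro T hT
        have hdes := descent (h₀ := ∑ p ∈ S, ((p - m : ℤ) : ℂ) • P p) (T := cj Bi B T) (by
          intro A hA
          refine hEnd A ?_
          exact comm_of_comm H hA) (by
          intro σ
          have h5 := hT σ
          have h6 := congrArg (cj Bi B) h5
          rw [← cj_mul h1, ← cj_mul h1, hcjφ, cj_cj h2] at h6
          exact h6)
        obtain ⟨c, hc⟩ := hdes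
        refine ⟨c, ?_⟩
        have h8 := congrArg (cj B Bi) hc
        rw [cj_cj h1, cj_smul, cj_one h1] at h8
        exact h8) with h5 | ⟨d, k, hd, hk, hcard, hdvd⟩
    · exact h5
    · exfalso
      refine hnum d k hd hk hcard fun p => ?_
      rw [← r1]
      exact hdvd _
  have hx : (cj B Bi X)ᵀ * (Biᵀ * toC Q * Bi) + (Biᵀ * toC Q * Bi) * cj B Bi X = 0 := by
    have e1 : (cj B Bi X)ᵀ * (Biᵀ * toC Q * Bi) = Biᵀ * (Xᵀ * toC Q) * Bi := by
      unfold cj
      rw [Matrix.transpose_mul, Matrix.transpose_mul]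
      calc Biᵀ * (Xᵀ * Bᵀ) * (Biᵀ * toC Q * Bi) = Biᵀ * Xᵀ * (Bᵀ * Biᵀ) * toC Q * Bi := by simp only [mul_assoc]
        _ = _ := by rw [b1, mul_one]; simp only [mul_assoc]
    have e2 : (Biᵀ * toC Q * Bi) * cj B Bi X = Biᵀ * (toC Q * X) * Bi := by
      unfold cj
      calc Biᵀ * toC Q * Bi * (B * X * Bi) = Biᵀ * toC Q * (Bi * B) * X * Bi := by simp only [mul_assoc]
        _ = _ := by rw [h2, mul_one]; simp only [mul_assoc]
    rw [e1, e2, ← Matrix.add_mul, ← Matrix.mul_add, hX, mul_zero, zero_mul]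
  have hmem : cj B Bi X ∈ LB Q S P B Bi := by
    refine hcore (Biᵀ * toC Q * Bi) (B * Qi * Bᵀ) hF f1 f2 (LB Q S P B Bi) D.br (fun W hW => D.stable W hW) ?_ hsmp
      (cj B Bi (∑ p ∈ S, ((p - m : ℤ) : ℂ) • P p)) (EE m S P B Bi) (LamS m S) D.mem ⟨D.spec.mul, D.spec.sum, D.spec.eq⟩
      hw r1 _ hx
    intro Y hY
    have e1 := D.sk Y hY
    rw [hτ] at e1
    have e2 : Yᵀ * (Biᵀ * toC Q * Bi) = -((Biᵀ * toC Q * Bi) * Y) := by
      calc Yᵀ * (Biᵀ * toC Q * Bi) = (Biᵀ * toC Q * Bi) * (B * Qi * Bᵀ * Yᵀ * (Biᵀ * toC Q * Bi)) := by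
            simp only [← mul_assoc]
            simp only [← mul_assoc] at f1
            rw [f1, one_mul]
        _ = _ := by rw [e1, mul_neg]
    rw [e2, neg_add_cancel]
  rw [mem_LB, cj_cj h2] at hmem
  exact hmem

/-- The special orthogonal group of the polarisation lies in the Mumford-Tate group. -/
theorem so_le_MT_core (H : IsHS m Q S P)
    (hEnd : ∀ A : Matrix n n ℚ, (∀ p, toC A * P p = P p * toC A) → ∃ c : ℚ, A = c • (1 : Matrix n n ℚ))
    (hI : NI.Indec (2 * m) (fun p => (P p).rank)) (hcore : Core n m (fun p => (P p).rank))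
    (hnum : ∀ d k : ℕ, 2 ≤ d → 2 ≤ k → Fintype.card n = d ^ k → (∀ p, d ^ (k - 1) ∣ (P p).rank) → False)
    {g : GL n ℂ} (h1 : (g : Matrix n n ℂ)ᵀ * toC Q * (g : Matrix n n ℂ) = toC Q)
    (h2 : (g : Matrix n n ℂ).det = 1) : g ∈ MT S P :=
  so_le_MT_of H (fun _ hX => so_kills_core H hEnd hI hcore hnum hX) h1 h2

/-- The numerical condition of PF: a prime divisor whose square is larger than the dimension. -/
theorem num_prime98 {N : ℕ} {p : ℕ} (hp : p.Prime) (hpn : p ∣ N) (hlt : N < p ^ 2) {d k : ℕ} (hk : 2 ≤ k)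
    (hN : N = d ^ k) (hd : 2 ≤ d) : False := by
  have h1 : p ∣ d := hp.dvd_of_dvd_pow (hN ▸ hpn)
  have h2 : p ≤ d := Nat.le_of_dvd (by omega) h1
  have h3 : p ^ 2 ≤ d ^ 2 := Nat.pow_le_pow_left h2 2
  have h4 : d ^ 2 ≤ d ^ k := Nat.pow_le_pow_right (by omega) hk
  omega

end MH
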