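import Pool.Agent.Helper98.PF.Dich

/-!
Project PF (MP_b8862a_ag), block D: the dimension of the algebra generated by two commuting algebras.
-/

open Matrix

namespace MH

variable {n : Type*} [Fintype n] [DecidableEq n]

private lemma units98 [Nonempty n] (A : Subalgebra ℂ (Matrix n n ℂ)) (hst : ∀ a ∈ A, aᴴ ∈ A)
    (hcen : ∀ a ∈ A, (∀ b ∈ A, a * b = b * a) → ∃ c : ℂ, a = c • (1 : Matrix n n ℂ)) :
    ∃ (d : ℕ) (ε : Fin d → Fin d → Matrix n n ℂ), 1 ≤ d ∧ (∀ i j, ε i j ∈ A) ∧
      (∀ i j k l, ε i j * ε k l = if j = k then ε i l else 0) ∧ ∑ i, ε i i = 1 ∧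
      ∀ a ∈ A, ∃ C : Matrix (Fin d) (Fin d) ℂ, a = ∑ i, ∑ j, C i j • ε i j := by
  classical
  obtain ⟨d, q, e, U, hd, hq, h1, h2, hA⟩ := OW.coord A hst hcen
  have hA' : ∀ T : Matrix n n ℂ, T ∈ A ↔ ∃ C : Matrix (Fin d) (Fin d) ℂ,
      T = NI.emb U e (kroneckerMap (· * ·) C (1 : Matrix (Fin q) (Fin q) ℂ)) := by
    intro T
    rw [hA]
    constructor
    · rintro ⟨C, hC⟩
      refine ⟨C, ?_⟩
      rw [← NI.emb_coord (e := e) h2 T, hC, submatrix_submatrix, Equiv.self_comp_symm, submatrix_id_id]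
    · rintro ⟨C, rfl⟩
      exact ⟨C, NI.coord_emb h1 _⟩
  have kadd : ∀ C C' : Matrix (Fin d) (Fin d) ℂ, kroneckerMap (· * ·) (C + C') (1 : Matrix (Fin q) (Fin q) ℂ) =
      kroneckerMap (· * ·) C (1 : Matrix (Fin q) (Fin q) ℂ) + kroneckerMap (· * ·) C' (1 : Matrix (Fin q) (Fin q) ℂ) := by
    intro C C'
    ext i j
    simp [add_mul]
  have ksm : ∀ (c : ℂ) (C : Matrix (Fin d) (Fin d) ℂ), kroneckerMap (· * ·) (c • C) (1 : Matrix (Fin q) (Fin q) ℂ) =
      c • kroneckerMap (· * ·) C (1 : Matrix (Fin q) (Fin q) ℂ) := by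
    intro c C
    ext i j
    simp [mul_assoc]
  let f : Matrix (Fin d) (Fin d) ℂ →ₗ[ℂ] Matrix n n ℂ :=
    { toFun := fun C => NI.emb U e (kroneckerMap (· * ·) C (1 : Matrix (Fin q) (Fin q) ℂ))
      map_add' := by
        intro C C'
        rw [kadd, NI.emb_add]
      map_smul' := by
        intro c C
        rw [ksm, NI.emb_smul]
        rfl }
  have fmul : ∀ C C', f C * f C' = f (C * C') := by
    intro C C'
    show NI.emb U e _ * NI.emb U e _ = NI.emb U e _
    rw [NI.emb_mul h1]
    congr 1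
    have z1 := mul_kronecker_mul C C' (1 : Matrix (Fin q) (Fin q) ℂ) (1 : Matrix (Fin q) (Fin q) ℂ)
    rw [Matrix.one_mul] at z1
    exact z1.symm
  have fone : f 1 = 1 := by
    show NI.emb U e _ = 1
    rw [← NI.emb_one (e := e) h2]
    congr 1
    exact one_kronecker_one
  refine ⟨d, fun i j => f (Matrix.single i j 1), hd, fun i j => (hA' _).2 ⟨_, rfl⟩, ?_, ?_, ?_⟩
  · intro i j k l
    rw [fmul]
    by_cases hjk : j = k
    · subst hjk
      rw [if_pos rfl, Matrix.single_mul_single_same, mul_one]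
    · rw [if_neg hjk, Matrix.single_mul_single_of_ne _ _ _ _ hjk, map_zero]
  · rw [← map_sum, ← fone]
    congr 1
    ext a b
    rw [Matrix.sum_apply, Finset.sum_eq_single a]
    · rw [Matrix.single_apply, Matrix.one_apply]
      simp
    · intro i _ hi
      rw [Matrix.single_apply, if_neg (fun h => hi h.1)]
    · intro h; exact absurd (Finset.mem_univ a) h
  · intro a ha
    obtain ⟨C, rfl⟩ := (hA' a).1 ha
    refine ⟨C, ?_⟩
    show f C = _
    conv_lhs => rw [Matrix.matrix_eq_sum_single C]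
    rw [map_sum]
    refine Finset.sum_congr rfl fun i _ => ?_
    rw [map_sum]
    refine Finset.sum_congr rfl fun j _ => ?_
    rw [← map_smul, Matrix.smul_single, smul_eq_mul, mul_one]

private lemma key98 {d : ℕ} {A B : Subalgebra ℂ (Matrix n n ℂ)} {ε : Fin d → Fin d → Matrix n n ℂ}
    (e1 : ∀ i j, ε i j ∈ A) (e2 : ∀ i j k l, ε i j * ε k l = if j = k then ε i l else 0) (e3 : ∑ i, ε i i = 1)
    (e4 : ∀ a ∈ A, ∃ C : Matrix (Fin d) (Fin d) ℂ, a = ∑ i, ∑ j, C i j • ε i j)
    (hcomm : ∀ a ∈ A, ∀ b ∈ B, a * b = b * a) :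
    Module.finrank ℂ (A ⊔ B : Subalgebra ℂ (Matrix n n ℂ)) = d * d * Module.finrank ℂ B := by
  classical
  have hcm : ∀ i j (b : B), ε i j * (b : Matrix n n ℂ) = (b : Matrix n n ℂ) * ε i j := fun i j b =>
    hcomm _ (e1 i j) _ b.2
  let Ψ : Matrix (Fin d) (Fin d) B →ₗ[ℂ] Matrix n n ℂ :=
    { toFun := fun z => ∑ i, ∑ j, ε i j * (z i j : Matrix n n ℂ)
      map_add' := by
        intro z w
        simp only [Matrix.add_apply, Subalgebra.coe_add, mul_add, Finset.sum_add_distrib]
      map_smul' := by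
        intro c z
        simp only [Matrix.smul_apply, Subalgebra.coe_smul, mul_smul_comm, RingHom.id_apply, Finset.smul_sum] }
  have hΨ : ∀ z, Ψ z = ∑ i, ∑ j, ε i j * (z i j : Matrix n n ℂ) := fun z => rfl
  have hone : Ψ 1 = 1 := by
    rw [hΨ, ← e3]
    refine Finset.sum_congr rfl fun i _ => ?_
    rw [Finset.sum_eq_single i]
    · rw [Matrix.one_apply_eq, Subalgebra.coe_one, mul_one]
    · intro j _ hj
      rw [Matrix.one_apply_ne (Ne.symm hj), Subalgebra.coe_zero, mul_zero]
    · intro h; exact absurd (Finset.mem_univ i) h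
  have hmul : ∀ z w, Ψ (z * w) = Ψ z * Ψ w := by
    intro z w
    rw [hΨ, hΨ, hΨ, Finset.sum_mul]
    refine Finset.sum_congr rfl fun i _ => ?_
    have s1 : ∀ j k, ε i j * (z i j : Matrix n n ℂ) * ∑ l, ε k l * (w k l : Matrix n n ℂ) =
        if j = k then ∑ l, ε i l * ((z i j : Matrix n n ℂ) * (w k l : Matrix n n ℂ)) else 0 := by
      intro j k
      rw [Finset.mul_sum]
      by_cases hjk : j = k
      · rw [if_pos hjk]
        refine Finset.sum_congr rfl fun l _ => ?_
        calc ε i j * (z i j : Matrix n n ℂ) * (ε k l * (w k l : Matrix n n ℂ)) =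
            ε i j * ((z i j : Matrix n n ℂ) * ε k l) * (w k l : Matrix n n ℂ) := by simp only [mul_assoc]
          _ = ε i j * ε k l * (z i j : Matrix n n ℂ) * (w k l : Matrix n n ℂ) := by
            rw [← hcm]; simp only [mul_assoc]
          _ = _ := by rw [e2, if_pos hjk, mul_assoc]
      · rw [if_neg hjk]
        refine Finset.sum_eq_zero fun l _ => ?_
        calc ε i j * (z i j : Matrix n n ℂ) * (ε k l * (w k l : Matrix n n ℂ)) =
            ε i j * ((z i j : Matrix n n ℂ) * ε k l) * (w k l : Matrix n n ℂ) := by simp only [mul_assoc]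
          _ = ε i j * ε k l * (z i j : Matrix n n ℂ) * (w k l : Matrix n n ℂ) := by
            rw [← hcm]; simp only [mul_assoc]
          _ = _ := by rw [e2, if_neg hjk, zero_mul, zero_mul]
    calc ∑ l, ε i l * (((z * w) i l : B) : Matrix n n ℂ) =
        ∑ l, ∑ j, ε i l * ((z i j : Matrix n n ℂ) * (w j l : Matrix n n ℂ)) := by
          refine Finset.sum_congr rfl fun l _ => ?_
          rw [← Finset.mul_sum]
          congr 1
          rw [Matrix.mul_apply, AddSubmonoidClass.coe_finsetSum]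
          rfl
      _ = ∑ j, ∑ l, ε i l * ((z i j : Matrix n n ℂ) * (w j l : Matrix n n ℂ)) := Finset.sum_comm
      _ = (∑ j, ε i j * (z i j : Matrix n n ℂ)) * ∑ k, ∑ l, ε k l * (w k l : Matrix n n ℂ) := by
          rw [Finset.sum_mul]
          refine Finset.sum_congr rfl fun j _ => ?_
          rw [Finset.mul_sum]
          simp only [s1, Finset.sum_ite_eq, Finset.mem_univ, if_true]
  have hinv : ∀ (z : Matrix (Fin d) (Fin d) B) (a b : Fin d), ∑ k, ε k a * Ψ z * ε b k = (z a b : Matrix n n ℂ) := by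
    intro z a b
    have s1 : ∀ k, ε k a * Ψ z * ε b k = ε k k * (z a b : Matrix n n ℂ) := by
      intro k
      rw [hΨ, Finset.mul_sum, Finset.sum_mul, Finset.sum_eq_single a]
      · rw [Finset.mul_sum, Finset.sum_mul, Finset.sum_eq_single b]
        · rw [← mul_assoc, e2, if_pos rfl, mul_assoc, ← hcm, ← mul_assoc, e2, if_pos rfl]
        · intro j _ hj
          rw [← mul_assoc, e2, if_pos rfl, mul_assoc, ← hcm, ← mul_assoc, e2, if_neg hj, zero_mul]
        · intro h; exact absurd (Finset.mem_univ b) h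
      · intro i _ hi
        rw [Finset.mul_sum, Finset.sum_mul]
        refine Finset.sum_eq_zero fun j _ => ?_
        rw [← mul_assoc, e2, if_neg (Ne.symm hi), zero_mul, zero_mul]
      · intro h; exact absurd (Finset.mem_univ a) h
    simp only [s1]
    rw [← Finset.sum_mul, e3, one_mul]
  have hinj : Function.Injective Ψ := by
    intro z w hzw
    ext a b : 2
    rw [← hinv z, ← hinv w, hzw]
  have hran : LinearMap.range Ψ = Subalgebra.toSubmodule (A ⊔ B) := by
    apply le_antisymm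
    · rintro _ ⟨z, rfl⟩
      rw [Subalgebra.mem_toSubmodule, hΨ]
      refine sum_mem fun i _ => sum_mem fun j _ => mul_mem ?_ ?_
      · exact (le_sup_left : A ≤ A ⊔ B) (e1 i j)
      · exact (le_sup_right : B ≤ A ⊔ B) (z i j).2
    · let R : Subalgebra ℂ (Matrix n n ℂ) := (AlgHom.ofLinearMap Ψ hone hmul).range
      have hR : ∀ x, x ∈ R → x ∈ LinearMap.range Ψ := by
        rintro _ ⟨z, rfl⟩
        exact ⟨z, rfl⟩
      have h1 : A ⊔ B ≤ R := by
        apply sup_le
        · intro a ha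
          obtain ⟨C, hC⟩ := e4 a ha
          refine ⟨Matrix.of fun i j => algebraMap ℂ B (C i j), ?_⟩
          show Ψ _ = a
          rw [hΨ, hC]
          refine Finset.sum_congr rfl fun i _ => Finset.sum_congr rfl fun j _ => ?_
          rw [Matrix.of_apply, Subalgebra.coe_algebraMap, Algebra.algebraMap_eq_smul_one, mul_smul_comm, mul_one]
        · intro b hb
          refine ⟨Matrix.diagonal fun _ => ⟨b, hb⟩, ?_⟩
          show Ψ _ = b
          rw [hΨ]
          have s1 : ∀ i, ∑ j, ε i j * ((Matrix.diagonal (fun _ : Fin d => (⟨b, hb⟩ : B)) i j : B) : Matrix n n ℂ) =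
              ε i i * b := by
            intro i
            rw [Finset.sum_eq_single i]
            · rw [Matrix.diagonal_apply_eq]
            · intro j _ hj
              rw [Matrix.diagonal_apply_ne _ (Ne.symm hj), Subalgebra.coe_zero, mul_zero]
            · intro h; exact absurd (Finset.mem_univ i) h
          simp only [s1]
          rw [← Finset.sum_mul, e3, one_mul]
      intro x hx
      exact hR x (h1 hx)
  have hfin := (LinearEquiv.ofInjective Ψ hinj).finrank_eq
  rw [Module.finrank_matrix, Fintype.card_fin, hran] at hfin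
  exact hfin.symm

/-- The dimension of the algebra generated by two commuting algebras. -/
theorem finrank_sup98 [Nonempty n] (A B : Subalgebra ℂ (Matrix n n ℂ)) (hst : ∀ a ∈ A, aᴴ ∈ A)
    (hcen : ∀ a ∈ A, (∀ b ∈ A, a * b = b * a) → ∃ c : ℂ, a = c • (1 : Matrix n n ℂ))
    (hcomm : ∀ a ∈ A, ∀ b ∈ B, a * b = b * a) :
    Module.finrank ℂ (A ⊔ B : Subalgebra ℂ (Matrix n n ℂ)) = Module.finrank ℂ A * Module.finrank ℂ B := by
  obtain ⟨d, ε, _, e1, e2, e3, e4⟩ := units98 A hst hcen
  have h1 := key98 (B := B) e1 e2 e3 e4 hcomm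
  have h2 := key98 (B := ⊥) e1 e2 e3 e4 (by
    intro a _ b hb
    obtain ⟨c, rfl⟩ := Algebra.mem_bot.1 hb
    exact (Algebra.commutes c a).symm)
  rw [sup_bot_eq, Subalgebra.finrank_bot, mul_one] at h2
  rw [h1, h2]

end MH
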